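import Pool.Agent.W5h26.GE.Sys

/-!
# Generic data have no solution with three lines
-/

set_option autoImplicit false

namespace Pool.Agent.W5h26.GE

open Finset

theorem two_ne_of_ind {Ω : Type} [Field Ω] {ι : Type} {x : ι → Ω} (hx : AlgebraicIndependent ℤ x) : (2 : Ω) ≠ 0 := by
  intro h
  have h1 : algebraMap ℤ Ω 2 = algebraMap ℤ Ω 0 := by rw [map_zero, map_ofNat, h]
  exact two_ne_zero (hx.algebraMap_injective h1)

theorem card_three {n : ℕ} {q1 q2 q3 : Fin n × Fin n} (h12 : q1 ≠ q2) (h13 : q1 ≠ q3) (h23 : q2 ≠ q3) :
    ((univ : Finset (Fin n × Fin n)) \ {q1, q2, q3}).card + 3 = n * n := by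
  classical
  have h3 : ({q1, q2, q3} : Finset (Fin n × Fin n)).card = 3 := card_eq_three.2 ⟨q1, q2, q3, h12, h13, h23, rfl⟩
  have := card_sdiff_add_card_eq_card (subset_univ ({q1, q2, q3} : Finset (Fin n × Fin n)))
  rw [h3, card_univ, Fintype.card_prod, Fintype.card_fin] at this
  exact this

theorem gen3 {n : ℕ} {i1 i2 i3 : Fin n} (h12 : i1 ≠ i2) (h13 : i1 ≠ i3) (h23 : i2 ≠ i3) (o ε : Bool) (Ω : Type) [Field Ω]
    (x : Ix n → Ω) (hx : AlgebraicIndependent ℤ x) (w : V3 n → Ω) (hw : ∀ k, E3 i1 i2 i3 o ε Ω k x w = 0) : False := by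
  classical
  have two := two_ne_of_ind hx
  obtain ⟨a, ha⟩ : ∃ a : Fin n → Ω, a = fun l => w (.a l) := ⟨_, rfl⟩
  obtain ⟨b, hb⟩ : ∃ b : Fin n → Ω, b = fun l => w (.b l) := ⟨_, rfl⟩
  obtain ⟨c, hc⟩ : ∃ c : Fin n → Ω, c = fun l => w (.c l) := ⟨_, rfl⟩
  obtain ⟨c0, hc0⟩ : ∃ c0 : Ω, c0 = w .c0 := ⟨_, rfl⟩
  obtain ⟨c1, hc1⟩ : ∃ c1 : Ω, c1 = w .c1 := ⟨_, rfl⟩
  obtain ⟨c2, hc2⟩ : ∃ c2 : Ω, c2 = w .c2 := ⟨_, rfl⟩
  obtain ⟨t, ht⟩ : ∃ t : Ω, t = w .t := ⟨_, rfl⟩
  obtain ⟨e, he⟩ : ∃ e : Ω, e = (if ε then 1 else 0 : Ω) := ⟨_, rfl⟩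
  have sq : ∀ l, a l * a l + b l * c l = 0 := fun l => by
    have := hw (.sq l)
    simpa only [E3, ha, hb, hc] using this
  have r1 : ∀ l, (uu x l * c1 + ∑ j, LL x l j * b j) * c l - b l * (uu x l * c2 + ∑ j, LL x l j * c j) -
      e * uu x l * a l = 0 := fun l => by
    have := hw (.r1 l)
    simpa only [E3, ha, hb, hc, hc1, hc2, he] using this
  have r2 : ∀ l, 2 * ((uu x l * c0 + ∑ j, LL x l j * a j) * b l - (uu x l * c1 + ∑ j, LL x l j * b j) * a l) -
      e * uu x l * b l = 0 := fun l => by
    have := hw (.r2 l)
    simpa only [E3, ha, hb, hc, hc1, hc0, he] using this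
  have r3 : ∀ l, 2 * ((uu x l * c2 + ∑ j, LL x l j * c j) * a l - (uu x l * c0 + ∑ j, LL x l j * a j) * c l) -
      e * uu x l * c l = 0 := fun l => by
    have := hw (.r3 l)
    simpa only [E3, ha, hb, hc, hc2, hc0, he] using this
  have a1 : a i1 = 0 := by rw [ha]; exact hw .a1
  have c1' : c i1 = 0 := by rw [hc]; exact hw .c1
  have b1 : b i1 ≠ 0 := by
    intro h
    have := hw .b1
    simp only [E3] at this
    rw [hb] at h
    dsimp only at h
    rw [h, zero_mul, zero_sub, neg_eq_zero] at this
    exact one_ne_zero this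
  have a2 : a i2 = 0 := by rw [ha]; exact hw .a2
  have b2 : b i2 = 0 := by rw [hb]; exact hw .b2
  have c2' : c i2 ≠ 0 := by
    intro h
    have := hw .c2
    simp only [E3] at this
    rw [hc] at h
    dsimp only at h
    rw [h, zero_mul, zero_sub, neg_eq_zero] at this
    exact one_ne_zero this
  have b3 : b i3 = -a i3 := by
    have := hw .b3
    simp only [E3] at this
    rw [ha, hb]
    exact eq_neg_of_add_eq_zero_left this
  have c3 : c i3 = a i3 := by
    have := hw .c3
    simp only [E3] at this
    rw [ha, hc]
    exact sub_eq_zero.1 this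
  have a3 : a i3 ≠ 0 := by
    intro h
    have := hw .a3
    simp only [E3] at this
    rw [ha] at h
    dsimp only at h
    rw [h, zero_mul, zero_sub, neg_eq_zero] at this
    exact one_ne_zero this
  -- the set of parameters
  set h3 : Ω := if o then t else c2 with hh3
  set g : Fin n × Fin n → Ω := fun q =>
    if a q.1 = 0 then (if c q.1 = 0 then (if b q.1 = 0 then x (Sum.inl q) else if q.2 = i2 then b q.1 else
      if q.2 = i3 then 0 else x (Sum.inl q)) else (if q.2 = i1 then c q.1 else if q.2 = i3 then 0 else x (Sum.inl q)))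
    else (if q.2 = i1 then a q.1 else if q.2 = i2 then b q.1 else x (Sum.inl q)) with hg
  -- the coefficients of the last equation
  set v : Fin n → Ω := fun j => if o then 2 * a j * t + b j * t ^ 2 - c j else b j with hv
  obtain ⟨j0, hj0⟩ : ∃ j0, v j0 ≠ 0 := by
    rw [hv]
    cases o with
    | false => exact ⟨i1, by simpa using b1⟩
    | true =>
      by_cases h : t = 0
      · refine ⟨i2, ?_⟩
        simp only [if_true, h, a2, b2]
        simpa using c2'
      · refine ⟨i1, ?_⟩
        simp only [if_true, a1, c1']
        simpa using ⟨b1, h⟩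
  set S : Finset Ω := {c0, c1, h3} ∪ (((univ : Finset (Fin n × Fin n)) \ {(i1, i3), (i2, i3), (i3, i2)}).image g ∪
    (univ.erase j0).image (bb x)) with hS
  have hScard : S.card < Fintype.card (Ix n) := by
    have k1 : ({c0, c1, h3} : Finset Ω).card ≤ 3 := card_le_three
    have k2 := card_three (q1 := (i1, i3)) (q2 := (i2, i3)) (q3 := (i3, i2)) (fun h => h12 (congrArg Prod.fst h))
      (fun h => h13 (congrArg Prod.fst h)) (fun h => h23 (congrArg Prod.fst h))
    have k3 : (univ.erase j0).card + 1 = n := by
      rw [card_erase_add_one (mem_univ j0), card_univ, Fintype.card_fin]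
    have k4 := card_union_le ({c0, c1, h3} : Finset Ω) ((((univ : Finset (Fin n × Fin n)) \ {(i1, i3), (i2, i3), (i3, i2)}).image g ∪
      (univ.erase j0).image (bb x)))
    have k5 := card_union_le (((univ : Finset (Fin n × Fin n)) \ {(i1, i3), (i2, i3), (i3, i2)}).image g)
      ((univ.erase j0).image (bb x))
    have k6 := card_image_le (s := (univ : Finset (Fin n × Fin n)) \ {(i1, i3), (i2, i3), (i3, i2)}) (f := g)
    have k7 := card_image_le (s := univ.erase j0) (f := bb x)
    rw [Fintype.card_sum, Fintype.card_prod, Fintype.card_fin, hS]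
    omega
  set L : Subfield Ω := Subfield.closure (S : Set Ω) with hL
  have hSL : ∀ y ∈ S, y ∈ L := fun y hy => Subfield.subset_closure hy
  have mc0 : c0 ∈ L := hSL _ (by rw [hS]; simp)
  have mc1 : c1 ∈ L := hSL _ (by rw [hS]; simp)
  have mh3 : h3 ∈ L := hSL _ (by rw [hS]; simp)
  have mg : ∀ l j, (l, j) ≠ (i1, i3) → (l, j) ≠ (i2, i3) → (l, j) ≠ (i3, i2) → g (l, j) ∈ L := fun l j k1 k2 k3 =>
    hSL _ (mem_union_right _ (mem_union_left _ (mem_image_of_mem g (mem_sdiff.2 ⟨mem_univ _, by
      simp only [mem_insert, mem_singleton]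
      push Not
      exact ⟨k1, k2, k3⟩⟩))))
  have mβ : ∀ j, j ≠ j0 → bb x j ∈ L := fun j hj =>
    hSL _ (mem_union_right _ (mem_union_right _ (mem_image_of_mem _ (mem_erase.2 ⟨hj, mem_univ j⟩))))
  have g1 : ∀ l j, a l = 0 → c l = 0 → b l = 0 → g (l, j) = x (Sum.inl (l, j)) := by
    intro l j k1 k2 k3
    simp only [hg, if_pos k1, if_pos k2, if_pos k3]
  have g2 : ∀ l j, a l = 0 → c l = 0 → b l ≠ 0 → g (l, j) = if j = i2 then b l else if j = i3 then 0 else x (Sum.inl (l, j)) := by
    intro l j k1 k2 k3
    simp only [hg, if_pos k1, if_pos k2, if_neg k3]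
  have g3 : ∀ l j, a l = 0 → c l ≠ 0 → g (l, j) = if j = i1 then c l else if j = i3 then 0 else x (Sum.inl (l, j)) := by
    intro l j k1 k2
    simp only [hg, if_pos k1, if_neg k2]
  have g4 : ∀ l j, a l ≠ 0 → g (l, j) = if j = i1 then a l else if j = i2 then b l else x (Sum.inl (l, j)) := by
    intro l j k1
    simp only [hg, if_neg k1]
  -- the matrices
  have b0 : ∀ l, a l = 0 → c l ≠ 0 → b l = 0 := by
    intro l k1 k2
    have := sq l
    rw [k1, zero_mul, zero_add] at this
    exact (mul_eq_zero.1 this).resolve_right k2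
  have bne : ∀ l, a l ≠ 0 → b l ≠ 0 := by
    intro l k1 k2
    have := sq l
    rw [k2, zero_mul, add_zero] at this
    exact k1 (mul_self_eq_zero.1 this)
  have cne : ∀ l, a l ≠ 0 → c l ≠ 0 := by
    intro l k1 k2
    have := sq l
    rw [k2, mul_zero, add_zero] at this
    exact k1 (mul_self_eq_zero.1 this)
  have ma : ∀ l, a l ∈ L := by
    intro l
    by_cases k1 : a l = 0
    · rw [k1]
      exact L.zero_mem
    · have := mg l i1 (fun h => h13 (congrArg Prod.snd h)) (fun h => h13 (congrArg Prod.snd h)) (fun h => h12 (congrArg Prod.snd h))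
      rwa [g4 l i1 k1, if_pos rfl] at this
  have mb : ∀ l, b l ∈ L := by
    intro l
    by_cases k1 : a l = 0
    · by_cases k2 : c l = 0
      · by_cases k3 : b l = 0
        · rw [k3]
          exact L.zero_mem
        · have := mg l i2 (fun h => h23 (congrArg Prod.snd h)) (fun h => h23 (congrArg Prod.snd h))
            (fun h => a3 (by rw [show i3 = l from (congrArg Prod.fst h).symm]; exact k1))
          rwa [g2 l i2 k1 k2 k3, if_pos rfl] at this
      · rw [b0 l k1 k2]
        exact L.zero_mem
    · by_cases hl : l = i3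
      · rw [hl, b3]
        exact L.neg_mem (ma i3)
      · have := mg l i2 (fun h => h23 (congrArg Prod.snd h)) (fun h => h23 (congrArg Prod.snd h))
          (fun h => hl (congrArg Prod.fst h))
        rwa [g4 l i2 k1, if_neg h12.symm, if_pos rfl] at this
  have mc : ∀ l, c l ∈ L := by
    intro l
    by_cases k1 : a l = 0
    · by_cases k2 : c l = 0
      · rw [k2]
        exact L.zero_mem
      · have := mg l i1 (fun h => h13 (congrArg Prod.snd h)) (fun h => h13 (congrArg Prod.snd h)) (fun h => h12 (congrArg Prod.snd h))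
        rwa [g3 l i1 k1 k2, if_pos rfl] at this
    · have h1 : c l = -(a l * a l) / b l := by
        rw [eq_div_iff (bne l k1)]
        linear_combination sq l
      rw [h1]
      exact L.div_mem (L.neg_mem (L.mul_mem (ma l) (ma l))) (mb l)
  have m2 : (2 : Ω) ∈ L := by
    have := L.add_mem L.one_mem L.one_mem
    rwa [one_add_one_eq_two] at this
  have mc2 : c2 ∈ L := by
    cases o with
    | false => exact mh3
    | true =>
      have h1 : c2 = 2 * c0 * t + c1 * t ^ 2 := by
        have := hw .vC
        simp only [E3, if_true] at this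
        rw [hc0, hc1, hc2, ht]
        linear_combination -this
      rw [h1]
      have mt : t ∈ L := mh3
      exact L.add_mem (L.mul_mem (L.mul_mem m2 mc0) mt) (L.mul_mem mc1 (L.pow_mem mt 2))
  have mv : ∀ j, v j ∈ L := by
    intro j
    rw [hv]
    cases o with
    | false => simpa using mb j
    | true =>
      have mt : t ∈ L := mh3
      simp only [if_true]
      exact L.sub_mem (L.add_mem (L.mul_mem (L.mul_mem m2 (ma j)) mt) (L.mul_mem (mb j) (L.pow_mem mt 2))) (mc j)
  have me : e ∈ L := by
    rw [he]
    split_ifs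
    · exact L.one_mem
    · exact L.zero_mem
  have mβ' : ∀ j, bb x j ∈ L := by
    intro j
    by_cases hj : j = j0
    · rw [hj]
      refine solve1 L (w := v) (β := bb x) mv (fun j hj _ => mβ j hj) hj0 ?_
      have h0 : ∑ j, bb x j * v j = 0 := by
        have := hw .vB
        rw [hv]
        cases o with
        | false =>
          simp only [E3] at this
          rw [hb]
          simpa using this
        | true =>
          simp only [E3, if_true] at this
          rw [ha, hb, hc, ht]
          simpa using this
      rw [h0]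
      exact L.zero_mem
    · exact mβ j hj
  -- the rows
  have row : ∀ l j, x (Sum.inl (l, j)) ∈ L := by
    intro l
    by_cases k1 : a l = 0
    · have n3 : l ≠ i3 := fun h => a3 (by rw [← h]; exact k1)
      by_cases k2 : c l = 0
      · have n2 : l ≠ i2 := fun h => c2' (by rw [← h]; exact k2)
        by_cases k3 : b l = 0
        · have n1 : l ≠ i1 := fun h => b1 (by rw [← h]; exact k3)
          intro j
          have := mg l j (fun h => n1 (congrArg Prod.fst h)) (fun h => n2 (congrArg Prod.fst h)) (fun h => n3 (congrArg Prod.fst h))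
          rwa [g1 l j k1 k2 k3] at this
        · -- unknown `i2`, `i3`
          have known : ∀ j, j ≠ i2 → j ≠ i3 → x (Sum.inl (l, j)) ∈ L := by
            intro j hj2 hj3
            have := mg l j (fun h => hj3 (congrArg Prod.snd h)) (fun h => hj3 (congrArg Prod.snd h))
              (fun h => hj2 (congrArg Prod.snd h))
            rwa [g2 l j k1 k2 k3, if_neg hj2, if_neg hj3] at this
          have mu : uu x l ∈ L := known l n2 n3
          have hA : ∑ j, LL x l j * a j ∈ L := by
            have h1 := r2 l
            rw [k1, mul_zero, sub_zero] at h1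
            have h2 : ∑ j, LL x l j * a j = e * uu x l / 2 - uu x l * c0 := by
              have h4 : 2 * (e * uu x l / 2) = e * uu x l := mul_div_cancel₀ _ two
              have h3 : (2 * b l) * (∑ j, LL x l j * a j) = (2 * b l) * (e * uu x l / 2 - uu x l * c0) := by
                linear_combination h1 - b l * h4
              exact mul_left_cancel₀ (mul_ne_zero two k3) h3
            rw [h2]
            exact L.sub_mem (L.div_mem (L.mul_mem me mu) m2) (L.mul_mem mu mc0)
          have hC : ∑ j, LL x l j * c j ∈ L := by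
            have h1 := r1 l
            rw [k1, k2, mul_zero, mul_zero] at h1
            have h2 : ∑ j, LL x l j * c j = -(uu x l * c2) := by
              have h3 : b l * (∑ j, LL x l j * c j) = b l * (-(uu x l * c2)) := by
                linear_combination -h1
              exact mul_left_cancel₀ k3 h3
            rw [h2]
            exact L.neg_mem (L.mul_mem mu mc2)
          have kL : ∀ j, j ≠ i2 → j ≠ i3 → LL x l j ∈ L := by
            intro j hj2 hj3
            unfold LL
            split_ifs
            · exact L.zero_mem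
            · exact known j hj2 hj3
          have m3 : LL x l i3 ∈ L := solve1 L (w := a) (β := LL x l) ma (fun j hj hj0 => kL j (fun h => hj0 (by rw [h]; exact a2)) hj) a3 hA
          have m2' : LL x l i2 ∈ L := solve1 L (w := c) (β := LL x l) mc (fun j hj hj0 => by
            by_cases h : j = i3
            · rw [h]; exact m3
            · exact kL j hj h) c2' hC
          intro j
          by_cases hj3 : j = i3
          · rw [hj3]
            unfold LL at m3
            rwa [if_neg n3] at m3
          · by_cases hj2 : j = i2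
            · rw [hj2]
              unfold LL at m2'
              rwa [if_neg n2] at m2'
            · exact known j hj2 hj3
      · -- unknown `i1`, `i3`
        have k3 := b0 l k1 k2
        have n1 : l ≠ i1 := fun h => k2 (by rw [h]; exact c1')
        have known : ∀ j, j ≠ i1 → j ≠ i3 → x (Sum.inl (l, j)) ∈ L := by
          intro j hj1 hj3
          have := mg l j (fun h => hj3 (congrArg Prod.snd h)) (fun h => hj3 (congrArg Prod.snd h))
            (fun h => n3 (congrArg Prod.fst h))
          rwa [g3 l j k1 k2, if_neg hj1, if_neg hj3] at this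
        have mu : uu x l ∈ L := known l n1 n3
        have hA : ∑ j, LL x l j * a j ∈ L := by
          have h1 := r3 l
          rw [k1, mul_zero, zero_sub] at h1
          have h2 : ∑ j, LL x l j * a j = -(e * uu x l / 2) - uu x l * c0 := by
            have h4 : 2 * (e * uu x l / 2) = e * uu x l := mul_div_cancel₀ _ two
            have h3 : (2 * c l) * (∑ j, LL x l j * a j) = (2 * c l) * (-(e * uu x l / 2) - uu x l * c0) := by
              linear_combination -h1 + c l * h4
            exact mul_left_cancel₀ (mul_ne_zero two k2) h3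
          rw [h2]
          exact L.sub_mem (L.neg_mem (L.div_mem (L.mul_mem me mu) m2)) (L.mul_mem mu mc0)
        have hB : ∑ j, LL x l j * b j ∈ L := by
          have h1 := r1 l
          rw [k1, k3, mul_zero, zero_mul] at h1
          have h2 : ∑ j, LL x l j * b j = -(uu x l * c1) := by
            have h3 : c l * (∑ j, LL x l j * b j) = c l * (-(uu x l * c1)) := by
              linear_combination h1
            exact mul_left_cancel₀ k2 h3
          rw [h2]
          exact L.neg_mem (L.mul_mem mu mc1)
        have kL : ∀ j, j ≠ i1 → j ≠ i3 → LL x l j ∈ L := by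
          intro j hj2 hj3
          unfold LL
          split_ifs
          · exact L.zero_mem
          · exact known j hj2 hj3
        have m3 : LL x l i3 ∈ L := solve1 L (w := a) (β := LL x l) ma (fun j hj hj0 => kL j (fun h => hj0 (by rw [h]; exact a1)) hj) a3 hA
        have m1 : LL x l i1 ∈ L := solve1 L (w := b) (β := LL x l) mb (fun j hj hj0 => by
          by_cases h : j = i3
          · rw [h]; exact m3
          · exact kL j hj h) b1 hB
        intro j
        by_cases hj3 : j = i3
        · rw [hj3]
          unfold LL at m3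
          rwa [if_neg n3] at m3
        · by_cases hj1 : j = i1
          · rw [hj1]
            unfold LL at m1
            rwa [if_neg n1] at m1
          · exact known j hj1 hj3
    · -- unknown `i1`, `i2`
      have n1 : l ≠ i1 := fun h => k1 (by rw [h]; exact a1)
      have n2 : l ≠ i2 := fun h => k1 (by rw [h]; exact a2)
      have k2 := bne l k1
      have k3 := cne l k1
      have known : ∀ j, j ≠ i1 → j ≠ i2 → x (Sum.inl (l, j)) ∈ L := by
        intro j hj1 hj2
        have := mg l j (fun h => n1 (congrArg Prod.fst h)) (fun h => n2 (congrArg Prod.fst h)) (fun h => hj2 (congrArg Prod.snd h))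
        rwa [g4 l j k1, if_neg hj1, if_neg hj2] at this
      have mu : uu x l ∈ L := known l n1 n2
      have kL : ∀ j, j ≠ i1 → j ≠ i2 → LL x l j ∈ L := by
        intro j hj2 hj3
        unfold LL
        split_ifs
        · exact L.zero_mem
        · exact known j hj2 hj3
      have hA : ∑ j, LL x l j * a j ∈ L := by
        refine L.sum_mem fun j _ => ?_
        by_cases h : a j = 0
        · rw [h, mul_zero]
          exact L.zero_mem
        · exact L.mul_mem (kL j (fun hj => h (by rw [hj]; exact a1)) (fun hj => h (by rw [hj]; exact a2))) (ma j)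
      have hB : ∑ j, LL x l j * b j ∈ L := by
        have h1 := r2 l
        have h2 : ∑ j, LL x l j * b j = ((uu x l * c0 + ∑ j, LL x l j * a j) * b l - e * uu x l * b l / 2) / a l - uu x l * c1 := by
          have h3 : (2 * a l) * (∑ j, LL x l j * b j) = (2 * a l) *
              (((uu x l * c0 + ∑ j, LL x l j * a j) * b l - e * uu x l * b l / 2) / a l - uu x l * c1) := by
            field_simp
            linear_combination -h1
          exact mul_left_cancel₀ (mul_ne_zero two k1) h3
        rw [h2]
        exact L.sub_mem (L.div_mem (L.sub_mem (L.mul_mem (L.add_mem (L.mul_mem mu mc0) hA) (mb l))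
          (L.div_mem (L.mul_mem (L.mul_mem me mu) (mb l)) m2)) (ma l)) (L.mul_mem mu mc1)
      have hC : ∑ j, LL x l j * c j ∈ L := by
        have h1 := r3 l
        have h2 : ∑ j, LL x l j * c j = ((uu x l * c0 + ∑ j, LL x l j * a j) * c l + e * uu x l * c l / 2) / a l - uu x l * c2 := by
          have h3 : (2 * a l) * (∑ j, LL x l j * c j) = (2 * a l) *
              (((uu x l * c0 + ∑ j, LL x l j * a j) * c l + e * uu x l * c l / 2) / a l - uu x l * c2) := by
            field_simp
            linear_combination h1
          exact mul_left_cancel₀ (mul_ne_zero two k1) h3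
        rw [h2]
        exact L.sub_mem (L.div_mem (L.add_mem (L.mul_mem (L.add_mem (L.mul_mem mu mc0) hA) (mc l))
          (L.div_mem (L.mul_mem (L.mul_mem me mu) (mc l)) m2)) (ma l)) (L.mul_mem mu mc2)
      have m1 : LL x l i1 ∈ L := solve1 L (w := b) (β := LL x l) mb (fun j hj hj0 => kL j hj (fun h => hj0 (by rw [h]; exact b2))) b1 hB
      have m2' : LL x l i2 ∈ L := solve1 L (w := c) (β := LL x l) mc (fun j hj hj0 => kL j (fun h => hj0 (by rw [h]; exact c1')) hj) c2' hC
      intro j
      by_cases hj1 : j = i1
      · rw [hj1]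
        unfold LL at m1
        rwa [if_neg n1] at m1
      · by_cases hj2 : j = i2
        · rw [hj2]
          unfold LL at m2'
          rwa [if_neg n2] at m2'
        · exact known j hj1 hj2
  have hall : ∀ i, x i ∈ Subfield.closure (S : Set Ω) := by
    rintro (⟨l, j⟩ | j)
    · exact row l j
    · exact mβ' j
  have := indep_le hx S hall
  omega

end Pool.Agent.W5h26.GE
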