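import Pool.Agent.W5h26.GE.Gen2
import Pool.Agent.W5h26.GE.Gen3
import Pool.Agent.Q202.QT.NtMap

/-!
# Exceptional linking data over all fields are zeros of a polynomial
-/

set_option autoImplicit false

namespace Pool.Agent.W5h26.GE

open Finset Matrix MvPolynomial
open Pool.Agent.TH831.OT Pool.Agent.TH831.OE Pool.Agent.Q202.QT

section
variable {K : Type} [Field K] {n : ℕ}

/-- the point of affine space -/
def pk (u : Fin n → K) (L : Fin n → Fin n → K) (b : Fin n → K) : Ix n → K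
  | .inl q => if q.1 = q.2 then u q.1 else L q.1 q.2
  | .inr j => b j

theorem uu_pk (u : Fin n → K) (L : Fin n → Fin n → K) (b : Fin n → K) (l : Fin n) : uu (pk u L b) l = u l := by
  simp [uu, pk]

theorem LL_pk (u : Fin n → K) {L : Fin n → Fin n → K} (hL : ∀ l, L l l = 0) (b : Fin n → K) (l j : Fin n) :
    LL (pk u L b) l j = L l j := by
  unfold LL
  by_cases h : l = j
  · rw [if_pos h, h, hL j]
  · rw [if_neg h]
    simp [pk, h]

theorem bb_pk (u : Fin n → K) (L : Fin n → Fin n → K) (b : Fin n → K) (j : Fin n) : bb (pk u L b) j = b j := rfl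

theorem of_pw {u : Fin n → K} {L : Fin n → Fin n → K} (hL : ∀ l, L l l = 0) {b : Fin n → K} (h : PW u L b) :
    ∃ (i1 i2 : Fin n) (cs : Fin 3), i1 ≠ i2 ∧ ∃ w, ∀ k, E2 i1 i2 cs K k (pk u L b) w = 0 := by
  obtain ⟨i1, i2, xp, yp, x, y, h12, hx, hy, hxy, r1, r2, hc⟩ := h
  obtain ⟨cs, hcs⟩ : ∃ cs : Fin 3, (if cs = 0 then xp else if cs = 1 then yp else xp - yp) = 0 ∧
      (if cs = 0 then ∑ j, b j * x j else if cs = 1 then ∑ j, b j * y j else ∑ j, b j * (x j - y j)) = 0 := by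
    rcases hc with ⟨e1, e2⟩ | ⟨e1, e2⟩ | ⟨e1, e2⟩
    · exact ⟨0, by simpa using e1, by simpa using e2⟩
    · exact ⟨1, by simpa using e1, by simpa using e2⟩
    · exact ⟨2, by simp [e1], by simpa using e2⟩
  refine ⟨i1, i2, cs, h12, fun v => match v with
    | .X l => x l
    | .Y l => y l
    | .xp => xp
    | .yp => yp
    | .y => (y i2)⁻¹, ?_⟩
  intro k
  cases k with
  | X1 => simp [E2, hx]
  | Y2 => simp [E2, hy]
  | xy l =>
    rcases hxy l with h | h <;> simp [E2, h]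
  | rx l =>
    simp only [E2, uu_pk, LL_pk u hL]
    by_cases h : x l = 0
    · rw [h, zero_mul]
    · rw [r1 l h, mul_zero]
  | ry l =>
    simp only [E2, uu_pk, LL_pk u hL]
    by_cases h : y l = 0
    · rw [h, zero_mul]
    · rw [r2 l h, mul_zero]
  | p1 =>
    simp only [E2]
    exact hcs.1
  | p2 =>
    simp only [E2, bb_pk]
    exact hcs.2

theorem of_w3 {u : Fin n → K} {L : Fin n → Fin n → K} (hL : ∀ l, L l l = 0) {b : Fin n → K} (ε : Bool)
    (h : W3 u L b (if ε then 1 else 0)) :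
    ∃ (i1 i2 i3 : Fin n) (o : Bool), i1 ≠ i2 ∧ i1 ≠ i3 ∧ i2 ≠ i3 ∧ ∃ w, ∀ k, E3 i1 i2 i3 o ε K k (pk u L b) w = 0 := by
  obtain ⟨i1, i2, i3, C, T, v, h12, h13, h23, hC, hsq, t1, t1', t2, t2', t3, t3', hrel, hv0, hv1, hv2⟩ := h
  obtain ⟨o, c, hc, rfl⟩ := exists_line hv0
  rw [wed_scale] at hv1 hv2
  have hv1' := (mul_eq_zero.1 hv1).resolve_left (pow_ne_zero 2 hc)
  have hv2' := (mul_eq_zero.1 hv2).resolve_left (pow_ne_zero 2 hc)
  rw [wed_sum] at hv2'
  have hT : ∀ l, T l 1 1 = -T l 0 0 := fun l => tz (trace_zero_of_sq (hsq l))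
  have hC' : C 1 1 = -C 0 0 := tz hC
  have ext4 : ∀ {M : M2 K}, M 0 0 = 0 → M 0 1 = 0 → M 1 0 = 0 → M 1 1 = 0 → M = 0 := by
    intro M m1 m2 m3 m4
    ext i j
    fin_cases i <;> fin_cases j
    · exact m1
    · exact m2
    · exact m3
    · exact m4
  have hM : ∀ l i j, (u l • C + ∑ k, L l k • T k) i j = u l * C i j + ∑ k, L l k * T k i j := by
    intro l i j
    rw [Matrix.add_apply, Matrix.smul_apply, Matrix.sum_apply, smul_eq_mul]
    rfl
  have hM11 : ∀ l, (u l • C + ∑ k, L l k • T k) 1 1 = -(u l * C 0 0 + ∑ k, L l k * T k 0 0) := by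
    intro l
    rw [hM, hC', neg_add, ← Finset.sum_neg_distrib, mul_neg]
    congr 1
    exact Finset.sum_congr rfl fun k _ => by rw [hT k, mul_neg]
  have a1 : T i1 0 0 = 0 ∧ T i1 1 0 = 0 := by
    have e0 := congrFun t1' 0
    have e1 := congrFun t1' 1
    simp only [Matrix.mulVec, dotProduct, Fin.sum_univ_two, Matrix.cons_val_zero, Matrix.cons_val_one, mul_one, mul_zero, add_zero,
      Pi.zero_apply] at e0 e1
    exact ⟨e0, e1⟩
  have b1 : T i1 0 1 ≠ 0 := fun h => t1 (ext4 a1.1 h a1.2 (by rw [hT, a1.1, neg_zero]))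
  have a2 : T i2 0 1 = 0 ∧ T i2 0 0 = 0 := by
    have e0 := congrFun t2' 0
    have e1 := congrFun t2' 1
    simp only [Matrix.mulVec, dotProduct, Fin.sum_univ_two, Matrix.cons_val_zero, Matrix.cons_val_one, mul_one, mul_zero, zero_add,
      Pi.zero_apply] at e0 e1
    rw [hT] at e1
    exact ⟨e0, neg_eq_zero.1 e1⟩
  have c2 : T i2 1 0 ≠ 0 := fun h => t2 (ext4 a2.2 a2.1 h (by rw [hT, a2.2, neg_zero]))
  have a3 : T i3 0 1 + T i3 0 0 = 0 ∧ T i3 1 0 - T i3 0 0 = 0 := by
    have e0 := congrFun t3' 0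
    have e1 := congrFun t3' 1
    simp only [Matrix.mulVec, dotProduct, Fin.sum_univ_two, Matrix.cons_val_zero, Matrix.cons_val_one, mul_one, mul_zero, zero_add,
      Pi.zero_apply] at e0 e1
    rw [hT] at e1
    exact ⟨by linear_combination e0, by linear_combination e1⟩
  have b3 : T i3 0 0 ≠ 0 := fun h => t3 (ext4 h (by linear_combination a3.1 - h) (by linear_combination a3.2 + h)
    (by rw [hT, h, neg_zero]))
  refine ⟨i1, i2, i3, o.isSome, h12, h13, h23, fun v => match v with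
    | .a l => T l 0 0
    | .b l => T l 0 1
    | .c l => T l 1 0
    | .c0 => C 0 0
    | .c1 => C 0 1
    | .c2 => C 1 0
    | .t => o.getD 0
    | .y1 => (T i1 0 1)⁻¹
    | .y2 => (T i2 1 0)⁻¹
    | .y3 => (T i3 0 0)⁻¹, ?_⟩
  have h2 : ∀ l i j, ((u l • C + ∑ k, L l k • T k) * T l - T l * (u l • C + ∑ k, L l k • T k)) i j =
      (((if ε then 1 else 0 : K) * u l) • T l) i j := fun l i j => congrFun (congrFun (hrel l) i) j
  intro k
  cases k with
  | sq l =>
    have h1 := congrFun (congrFun (hsq l) 0) 0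
    rw [Matrix.mul_apply, Fin.sum_univ_two] at h1
    exact h1
  | r1 l =>
    have h1 := h2 l 0 0
    rw [Matrix.sub_apply, Matrix.mul_apply, Matrix.mul_apply, Fin.sum_univ_two, Fin.sum_univ_two, Matrix.smul_apply,
      smul_eq_mul, hM, hM, hM] at h1
    simp only [E3, uu_pk, LL_pk u hL]
    linear_combination h1
  | r2 l =>
    have h1 := h2 l 0 1
    rw [Matrix.sub_apply, Matrix.mul_apply, Matrix.mul_apply, Fin.sum_univ_two, Fin.sum_univ_two, Matrix.smul_apply,
      smul_eq_mul, hM, hM, hM11, hT l] at h1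
    simp only [E3, uu_pk, LL_pk u hL]
    linear_combination h1
  | r3 l =>
    have h1 := h2 l 1 0
    rw [Matrix.sub_apply, Matrix.mul_apply, Matrix.mul_apply, Fin.sum_univ_two, Fin.sum_univ_two, Matrix.smul_apply,
      smul_eq_mul, hM11, hM, hM, hT l] at h1
    simp only [E3, uu_pk, LL_pk u hL]
    linear_combination h1
  | a1 => exact a1.1
  | c1 => exact a1.2
  | b1 => simp [E3, b1]
  | a2 => exact a2.2
  | b2 => exact a2.1
  | c2 => simp [E3, c2]
  | b3 => exact a3.1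
  | c3 => exact a3.2
  | a3 => simp [E3, b3]
  | vC =>
    cases o with
    | none =>
      simp only [wed, VV, Matrix.mulVec, dotProduct, Fin.sum_univ_two, Matrix.cons_val_zero, Matrix.cons_val_one] at hv1'
      simp only [E3, Option.isSome_none, Bool.false_eq_true, if_false]
      linear_combination hv1'
    | some t =>
      simp only [wed, VV, Matrix.mulVec, dotProduct, Fin.sum_univ_two, Matrix.cons_val_zero, Matrix.cons_val_one] at hv1'
      simp only [E3, Option.isSome_some, if_true, Option.getD_some]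
      rw [hC'] at hv1'
      linear_combination hv1'
  | vB =>
    cases o with
    | none =>
      simp only [wed, VV, Matrix.mulVec, dotProduct, Fin.sum_univ_two, Matrix.cons_val_zero, Matrix.cons_val_one] at hv2'
      simp only [E3, Option.isSome_none, Bool.false_eq_true, if_false, bb_pk]
      rw [← hv2']
      exact Finset.sum_congr rfl fun j _ => by ring
    | some t =>
      simp only [wed, VV, Matrix.mulVec, dotProduct, Fin.sum_univ_two, Matrix.cons_val_zero, Matrix.cons_val_one] at hv2'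
      simp only [E3, Option.isSome_some, if_true, Option.getD_some, bb_pk]
      rw [← hv2']
      exact Finset.sum_congr rfl fun j _ => by rw [hT j]; ring

/-- exceptional data -/
def BadK (u : Fin n → K) (L : Fin n → Fin n → K) (b : Fin n → K) : Prop :=
  (∃ i, u i = 0) ∨ ¬ NPi u L b ∨ ¬ NTi u L b 0 ∨ ¬ NTi u L b 1

end

theorem exists_poly (n : ℕ) : ∃ P : MvPolynomial (Ix n) ℤ, P ≠ 0 ∧ ∀ (K : Type) [Field K], (2 : K) ≠ 0 →
    ∀ (u : Fin n → K) (L : Fin n → Fin n → K) (b : Fin n → K), (∀ l, L l l = 0) → BadK u L b → aeval (pk u L b) P = 0 := by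
  classical
  have k3 : ∀ τ : Fin n × Fin n × Fin n × Bool × Bool, ∃ P : MvPolynomial (Ix n) ℤ, P ≠ 0 ∧
      (τ.1 ≠ τ.2.1 → τ.1 ≠ τ.2.2.1 → τ.2.1 ≠ τ.2.2.1 → ∀ (K : Type) [Field K] (x : Ix n → K),
        (∃ w, ∀ k, E3 τ.1 τ.2.1 τ.2.2.1 τ.2.2.2.1 τ.2.2.2.2 K k x w = 0) → aeval x P = 0) := by
    rintro ⟨i1, i2, i3, o, ε⟩
    by_cases h12 : i1 = i2
    · exact ⟨1, one_ne_zero, fun h => absurd h12 h⟩
    · by_cases h13 : i1 = i3
      · exact ⟨1, one_ne_zero, fun _ h => absurd h13 h⟩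
      · by_cases h23 : i2 = i3
        · exact ⟨1, one_ne_zero, fun _ _ h => absurd h23 h⟩
        · obtain ⟨P, hP0, hP⟩ := elim (fun R _ x => ∃ w, ∀ k, E3 i1 i2 i3 o ε R k x w = 0)
            (fun R S _ _ f x h => sys_hom (fun R _ k x w => E3 i1 i2 i3 o ε R k x w) (E3_nat i1 i2 i3 o ε) R S f x h)
            (fun J R _ x h => sys_prod (fun R _ k x w => E3 i1 i2 i3 o ε R k x w) (E3_nat i1 i2 i3 o ε) J R x h)
            (fun Ω _ x ⟨w, hw⟩ hx => gen3 h12 h13 h23 o ε Ω x hx w hw)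
          exact ⟨P, hP0, fun _ _ _ K _ x h => hP K x h⟩
  have k2 : ∀ τ : Fin n × Fin n × Fin 3, ∃ P : MvPolynomial (Ix n) ℤ, P ≠ 0 ∧
      (τ.1 ≠ τ.2.1 → ∀ (K : Type) [Field K] (x : Ix n → K),
        (∃ w, ∀ k, E2 τ.1 τ.2.1 τ.2.2 K k x w = 0) → aeval x P = 0) := by
    rintro ⟨i1, i2, cs⟩
    by_cases h12 : i1 = i2
    · exact ⟨1, one_ne_zero, fun h => absurd h12 h⟩
    · obtain ⟨P, hP0, hP⟩ := elim (fun R _ x => ∃ w, ∀ k, E2 i1 i2 cs R k x w = 0)
        (fun R S _ _ f x h => sys_hom (fun R _ k x w => E2 i1 i2 cs R k x w) (E2_nat i1 i2 cs) R S f x h)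
        (fun J R _ x h => sys_prod (fun R _ k x w => E2 i1 i2 cs R k x w) (E2_nat i1 i2 cs) J R x h)
        (fun Ω _ x ⟨w, hw⟩ hx => gen2 h12 cs Ω x hx w hw)
      exact ⟨P, hP0, fun _ K _ x h => hP K x h⟩
  choose P3 hP3 hP3' using k3
  choose P2 hP2 hP2' using k2
  refine ⟨(∏ τ, P3 τ) * ((∏ τ, P2 τ) * ∏ l : Fin n, X (Sum.inl (l, l))), ?_, ?_⟩
  · refine mul_ne_zero (prod_ne_zero_iff.2 fun τ _ => hP3 τ) (mul_ne_zero (prod_ne_zero_iff.2 fun τ _ => hP2 τ)
      (prod_ne_zero_iff.2 fun l _ => X_ne_zero _))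
  · intro K _ two u L b hL hbad
    rw [map_mul, map_mul, map_prod, map_prod, map_prod]
    have z3 : (∃ ε : Bool, W3 u L b (if ε then 1 else 0)) → ∏ τ, aeval (pk u L b) (P3 τ) = 0 := by
      rintro ⟨ε, h⟩
      obtain ⟨i1, i2, i3, o, h12, h13, h23, hw⟩ := of_w3 hL ε h
      exact prod_eq_zero (mem_univ (i1, i2, i3, o, ε)) (hP3' (i1, i2, i3, o, ε) h12 h13 h23 K _ hw)
    have z2 : PW u L b → ∏ τ, aeval (pk u L b) (P2 τ) = 0 := by
      intro h
      obtain ⟨i1, i2, cs, h12, hw⟩ := of_pw hL h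
      exact prod_eq_zero (mem_univ (i1, i2, cs)) (hP2' (i1, i2, cs) h12 K _ hw)
    by_cases hu : ∃ i, u i = 0
    · obtain ⟨i, hi⟩ := hu
      rw [prod_eq_zero (f := fun l : Fin n => aeval (pk u L b) (X (Sum.inl (l, l)) : MvPolynomial (Ix n) ℤ)) (mem_univ i)
        (by rw [aeval_X]; simp [pk, hi]), mul_zero, mul_zero]
    · have hu' : ∀ i, u i ≠ 0 := fun i hi => hu ⟨i, hi⟩
      rcases hbad with h | h | h | h
      · exact absurd h hu
      · rw [z2 (np_witness hu' h), zero_mul, mul_zero]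
      · rcases nt_witness two hu' h with h | h
        · rw [z3 ⟨false, by simpa using h⟩, zero_mul]
        · rw [z2 h, zero_mul, mul_zero]
      · rcases nt_witness two hu' h with h | h
        · rw [z3 ⟨true, by simpa using h⟩, zero_mul]
        · rw [z2 h, zero_mul, mul_zero]

section
variable {p : ℕ} [hpF : Fact p.Prime]

/-- exceptional over some field of characteristic `p` -/
def BadI {k : ℕ} (D : Dat p k) : Prop :=
  ∃ (K : Type) (_ : Field K) (f : ZMod p →+* K), BadK (fun l => f (D.1 l).1) (fun l j => f ((D.1 l).2 j)) (fun j => f (D.2 j))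

end

open Classical in
theorem badI_card (n : ℕ) : ∃ c p₀ : ℕ, ∀ (p : ℕ) [Fact p.Prime], p₀ ≤ p → p ≠ 2 →
    ((Z p n).filter fun D => BadI D).card * p ≤ c * p ^ (n ^ 2 + n) := by
  obtain ⟨P, hP0, hP⟩ := exists_poly n
  obtain ⟨c, p₀, hz⟩ := zeros_le P hP0
  refine ⟨c, p₀, fun p hpF hp hp2 => ?_⟩
  have hpp : p.Prime := hpF.out
  have hc : Fintype.card (Ix n) = n ^ 2 + n := by
    rw [Fintype.card_sum, Fintype.card_prod, Fintype.card_fin, sq]
  have h1 := hz p hp
  rw [hc] at h1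
  refine le_trans (Nat.mul_le_mul_right p ?_) h1
  refine card_le_card_of_injOn (fun D => pk (fun l => (D.1 l).1) (fun l => (D.1 l).2) D.2) ?_ ?_
  · intro D hD
    obtain ⟨hD1, K, _, f, hbad⟩ := mem_filter.1 (mem_coe.1 hD)
    have hdiag := (mem_filter.1 hD1).2
    refine mem_coe.2 (mem_filter.2 ⟨mem_univ _, ?_⟩)
    have two : (2 : K) ≠ 0 := by
      intro h
      have h2 : f 2 = f 0 := by rw [map_ofNat, map_zero, h]
      have h3 : (2 : ZMod p) = 0 := f.injective h2
      have h4 : ((2 : ℕ) : ZMod p) = 0 := by exact_mod_cast h3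
      rw [ZMod.natCast_eq_zero_iff] at h4
      have := Nat.le_of_dvd (by norm_num) h4
      have := hpp.two_le
      omega
    have h3 := hP K two _ _ _ (fun l => by rw [hdiag l, map_zero]) hbad
    have h4 : (fun i => f (pk (fun l => (D.1 l).1) (fun l => (D.1 l).2) D.2 i)) =
        pk (fun l => f (D.1 l).1) (fun l j => f ((D.1 l).2 j)) (fun j => f (D.2 j)) := by
      funext i
      rcases i with ⟨l, j⟩ | j
      · simp only [pk]
        split_ifs <;> rfl
      · rfl
    have h5 : f (aeval (pk (fun l => (D.1 l).1) (fun l => (D.1 l).2) D.2) P) =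
        aeval (fun i => f (pk (fun l => (D.1 l).1) (fun l => (D.1 l).2) D.2 i)) P := by
      have : f.comp (aeval (pk (fun l => (D.1 l).1) (fun l => (D.1 l).2) D.2) : MvPolynomial (Ix n) ℤ →ₐ[ℤ] ZMod p).toRingHom =
          (aeval (fun i => f (pk (fun l => (D.1 l).1) (fun l => (D.1 l).2) D.2 i)) : MvPolynomial (Ix n) ℤ →ₐ[ℤ] K).toRingHom := by
        refine MvPolynomial.ringHom_ext (fun r => ?_) (fun i => ?_)
        · simp
        · simp
      exact congrFun (congrArg DFunLike.coe this) P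
    rw [h4, h3] at h5
    exact f.injective (by rw [h5, map_zero])
  · intro D hD D' hD' h
    have hd := (mem_filter.1 (mem_filter.1 (mem_coe.1 hD)).1).2
    have hd' := (mem_filter.1 (mem_filter.1 (mem_coe.1 hD')).1).2
    refine Prod.ext (funext fun l => Prod.ext ?_ (funext fun j => ?_)) (funext fun j => ?_)
    · have := congrFun h (Sum.inl (l, l))
      simpa [pk] using this
    · by_cases hlj : l = j
      · rw [← hlj, hd l, hd' l]
      · have := congrFun h (Sum.inl (l, j))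
        simpa [pk, hlj] using this
    · exact congrFun h (Sum.inr j)

end Pool.Agent.W5h26.GE
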