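import Mathlib

/-!
# Elimination: systems of equations without generic solutions

A condition on the points of affine space over commutative rings which is preserved by homomorphisms and products and which no
algebraically independent point over a field satisfies implies a nonzero polynomial equation with integral coefficients.
-/

set_option autoImplicit false

namespace Pool.Agent.W5h26.GE

open MvPolynomial

theorem indep_le {Ω : Type} [Field Ω] {ι : Type} [Fintype ι] {x : ι → Ω} (hx : AlgebraicIndependent ℤ x) (S : Finset Ω)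
    (h : ∀ i, x i ∈ Subfield.closure (S : Set Ω)) : Fintype.card ι ≤ S.card := by
  have hinj : Function.Injective (algebraMap ℤ Ω) := hx.algebraMap_injective
  have : FaithfulSMul ℤ Ω := (faithfulSMul_iff_algebraMap_injective ℤ Ω).2 hinj
  have hind : (AlgebraicIndependent.matroid ℤ Ω).Indep (Set.range x) := by
    rw [AlgebraicIndependent.matroid_indep_iff]
    exact hx.to_subtype_range
  have hsub : Set.range x ⊆ (AlgebraicIndependent.matroid ℤ Ω).closure (S : Set Ω) := by
    rintro _ ⟨i, rfl⟩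
    rw [AlgebraicIndependent.matroid_closure_eq, SetLike.mem_coe, Subalgebra.mem_algebraicClosure]
    refine Subfield.closure_induction (p := fun y _ => IsAlgebraic (Algebra.adjoin ℤ (S : Set Ω)) y) ?_ ?_ ?_ ?_ ?_ ?_ (h i)
    · intro y hy
      exact isAlgebraic_algebraMap (⟨y, Algebra.subset_adjoin hy⟩ : Algebra.adjoin ℤ (S : Set Ω))
    · exact isAlgebraic_one
    · intro y z _ _ hy hz
      exact hy.add hz
    · intro y _ hy
      exact hy.neg
    · intro y _ hy
      exact hy.inv
    · intro y z _ _ hy hz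
      exact hy.mul hz
  have h1 := (hind.encard_le_eRk_of_subset hsub).trans
    ((le_of_eq (Matroid.eRk_closure_eq _ _)).trans (Matroid.eRk_le_encard _ _))
  rw [Set.encard_coe_eq_coe_finsetCard, ← Set.image_univ, hx.injective.encard_image, Set.encard_univ,
    ENat.card_eq_coe_fintype_card] at h1
  exact_mod_cast h1

variable {ι : Type}

theorem exists_field {A : Type} [CommRing A] (M : Submonoid A) (hM : Disjoint ((⊥ : Ideal A) : Set A) (M : Set A)) :
    ∃ (Ω : Type) (_ : Field Ω) (f : A →+* Ω), ∀ y ∈ M, f y ≠ 0 := by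
  obtain ⟨q, hq, -, hqM⟩ := Ideal.exists_le_prime_disjoint (⊥ : Ideal A) M hM
  refine ⟨FractionRing (A ⧸ q), inferInstance, (algebraMap (A ⧸ q) (FractionRing (A ⧸ q))).comp (Ideal.Quotient.mk q), ?_⟩
  intro y hy h
  have h2 : Ideal.Quotient.mk q y = 0 :=
    (FaithfulSMul.algebraMap_injective (A ⧸ q) (FractionRing (A ⧸ q))) (by rw [map_zero]; exact h)
  exact Set.disjoint_left.1 hqM (Ideal.Quotient.eq_zero_iff_mem.1 h2) hy

theorem elim (Bd : ∀ (R : Type) [CommRing R], (ι → R) → Prop)
    (hhom : ∀ (R S : Type) [CommRing R] [CommRing S] (f : R →+* S) (x : ι → R), Bd R x → Bd S (fun i => f (x i)))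
    (hprod : ∀ (J : Type) (R : J → Type) [∀ j, CommRing (R j)] (x : ∀ j, ι → R j), (∀ j, Bd (R j) (x j)) →
      Bd (∀ j, R j) (fun i j => x j i))
    (hgen : ∀ (Ω : Type) [Field Ω] (x : ι → Ω), Bd Ω x → ¬ AlgebraicIndependent ℤ x) :
    ∃ P : MvPolynomial ι ℤ, P ≠ 0 ∧ ∀ (K : Type) [Field K] (x : ι → K), Bd K x → aeval x P = 0 := by
  classical
  by_contra hcon
  push Not at hcon
  choose K iK x hB hx using hcon
  let J : Type := {P : MvPolynomial ι ℤ // P ≠ 0}
  let R : J → Type := fun j => K j.1 j.2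
  let _ : ∀ j, Field (R j) := fun j => iK j.1 j.2
  let A : Type := ∀ j, R j
  let X : ι → A := fun i j => x j.1 j.2 i
  have hX : Bd A X := hprod J R (fun j => x j.1 j.2) fun j => hB j.1 j.2
  have hcomp : ∀ (P : MvPolynomial ι ℤ) (j : J), aeval X P j = aeval (x j.1 j.2) P := by
    intro P j
    have : (Pi.evalRingHom R j).comp (aeval X : MvPolynomial ι ℤ →ₐ[ℤ] A).toRingHom =
        (aeval (x j.1 j.2) : MvPolynomial ι ℤ →ₐ[ℤ] R j).toRingHom := by
      refine MvPolynomial.ringHom_ext (fun r => ?_) (fun i => ?_)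
      · simp
      · simp [X]
    exact congrFun (congrArg DFunLike.coe this) P
  let M : Submonoid A := (nonZeroDivisors (MvPolynomial ι ℤ)).map (aeval X : MvPolynomial ι ℤ →ₐ[ℤ] A)
  have hM : Disjoint ((⊥ : Ideal A) : Set A) (M : Set A) := by
    rw [Set.disjoint_left]
    rintro y hy ⟨P, hP, rfl⟩
    have hP0 : P ≠ 0 := nonZeroDivisors.ne_zero hP
    have h1 : aeval X P = 0 := by simpa using hy
    have h2 := congrFun h1 ⟨P, hP0⟩
    rw [hcomp] at h2
    exact hx P hP0 h2
  obtain ⟨Ω, iΩ, f, hf⟩ := exists_field M hM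
  refine hgen Ω (fun i => f (X i)) (hhom A Ω f X hX) ?_
  rw [algebraicIndependent_iff]
  intro P hP
  by_contra hP0
  have h1 : f (aeval X P) = aeval (fun i => f (X i)) P := by
    have : f.comp (aeval X : MvPolynomial ι ℤ →ₐ[ℤ] A).toRingHom =
        (aeval (fun i => f (X i)) : MvPolynomial ι ℤ →ₐ[ℤ] Ω).toRingHom := by
      refine MvPolynomial.ringHom_ext (fun r => ?_) (fun i => ?_)
      · simp
      · simp
    exact congrFun (congrArg DFunLike.coe this) P
  rw [hP] at h1
  exact hf _ ⟨P, mem_nonZeroDivisors_of_ne_zero hP0, rfl⟩ h1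

open Finset in
/-- the number of zeros modulo large primes -/
theorem zeros_le [Fintype ι] [DecidableEq ι] (P : MvPolynomial ι ℤ) (hP : P ≠ 0) : ∃ c p₀ : ℕ, ∀ (p : ℕ) [Fact p.Prime], p₀ ≤ p →
    ((univ : Finset (ι → ZMod p)).filter fun x => aeval x P = 0).card * p ≤ c * p ^ Fintype.card ι := by
  classical
  obtain ⟨m, hm⟩ := MvPolynomial.ne_zero_iff.1 hP
  refine ⟨P.totalDegree, (coeff m P).natAbs + 1, fun p hpF hp => ?_⟩
  have hpp : p.Prime := hpF.out
  set n := Fintype.card ι with hn
  let e : ι ≃ Fin n := Fintype.equivFin ι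
  set Q : MvPolynomial (Fin n) (ZMod p) := rename e (map (Int.castRingHom (ZMod p)) P) with hQ
  have hmap : map (Int.castRingHom (ZMod p)) P ≠ 0 := by
    rw [MvPolynomial.ne_zero_iff]
    refine ⟨m, ?_⟩
    rw [coeff_map, eq_intCast, Ne, ZMod.intCast_zmod_eq_zero_iff_dvd]
    intro h
    have := Nat.le_of_dvd (Int.natAbs_pos.2 hm) (Int.natCast_dvd.1 h)
    omega
  have hQ0 : Q ≠ 0 := by
    rw [hQ, Ne, ← map_zero (rename e : MvPolynomial ι (ZMod p) →ₐ[ZMod p] _), (rename_injective _ e.injective).eq_iff]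
    exact hmap
  have hdeg : Q.totalDegree ≤ P.totalDegree := (totalDegree_rename_le _ _).trans (Finset.sup_mono (support_map_subset _ _))
  have hsz := schwartz_zippel_totalDegree hQ0 (univ : Finset (ZMod p))
  rw [card_univ, ZMod.card] at hsz
  have hev : ∀ x : ι → ZMod p, eval (x ∘ e.symm) Q = aeval x P := by
    intro x
    rw [hQ, eval_rename, eval_map, aeval_def]
    have : (x ∘ e.symm) ∘ e = x := by
      funext i
      simp
    rw [this]
    congr!
  have hcard : ((univ : Finset (ι → ZMod p)).filter fun x => aeval x P = 0).card ≤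
      ((Fintype.piFinset fun _ : Fin n => (univ : Finset (ZMod p))).filter fun f => eval f Q = 0).card := by
    refine card_le_card_of_injOn (fun x => x ∘ e.symm) ?_ ?_
    · intro x hx
      have h1 := (mem_filter.1 (mem_coe.1 hx)).2
      refine mem_coe.2 (mem_filter.2 ⟨Fintype.mem_piFinset.2 fun _ => mem_univ _, ?_⟩)
      rw [hev]
      exact h1
    · intro x _ y _ h
      funext i
      have := congrFun h (e i)
      simpa using this
  have hp0 : (0 : ℚ) < p := by exact_mod_cast hpp.pos
  have hsz' : ((((Fintype.piFinset fun _ : Fin n => (univ : Finset (ZMod p))).filter fun f => eval f Q = 0).card : ℕ) : ℚ) /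
      (p : ℚ) ^ n ≤ (Q.totalDegree : ℚ) / p := by
    exact_mod_cast hsz
  rw [div_le_div_iff₀ (pow_pos hp0 _) hp0] at hsz'
  have h3 : ((Fintype.piFinset fun _ : Fin n => (univ : Finset (ZMod p))).filter fun f => eval f Q = 0).card * p ≤
      Q.totalDegree * p ^ n := by
    exact_mod_cast hsz'
  calc _ ≤ _ := Nat.mul_le_mul_right p hcard
    _ ≤ _ := h3
    _ ≤ _ := Nat.mul_le_mul_right _ hdeg

/-! ### Solving one equation in a subfield -/

open Finset in
theorem solve1 {Ω : Type} [Field Ω] (L : Subfield Ω) {n : ℕ} {w β : Fin n → Ω} {a : Fin n} (hw : ∀ j, w j ∈ L)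
    (hβ : ∀ j, j ≠ a → w j ≠ 0 → β j ∈ L) (ha : w a ≠ 0) (h : ∑ j, β j * w j ∈ L) : β a ∈ L := by
  classical
  have h1 : ∑ j, β j * w j = β a * w a + ∑ j ∈ univ.erase a, β j * w j := (add_sum_erase univ _ (mem_univ a)).symm
  have h2 : ∑ j ∈ univ.erase a, β j * w j ∈ L := by
    refine L.sum_mem fun j hj => ?_
    by_cases h0 : w j = 0
    · rw [h0, mul_zero]
      exact L.zero_mem
    · exact L.mul_mem (hβ j (ne_of_mem_erase hj) h0) (hw j)
  have h3 : β a = ((∑ j, β j * w j) - ∑ j ∈ univ.erase a, β j * w j) / w a := by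
    rw [h1, add_sub_cancel_right, mul_div_cancel_right₀ _ ha]
  rw [h3]
  exact L.div_mem (L.sub_mem h h2) (hw a)

end Pool.Agent.W5h26.GE
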