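import Pool.Agent.W5h26.GE.Sys

/-!
# Generic data have no solution with two lines
-/

set_option autoImplicit false

namespace Pool.Agent.W5h26.GE

open Finset

theorem gen2 {n : ℕ} {i1 i2 : Fin n} (h12 : i1 ≠ i2) (cs : Fin 3) (Ω : Type) [Field Ω]
    (x : Ix n → Ω) (hx : AlgebraicIndependent ℤ x) (w : V2 n → Ω) (hw : ∀ k, E2 i1 i2 cs Ω k x w = 0) : False := by
  classical
  obtain ⟨X, hX⟩ : ∃ X : Fin n → Ω, X = fun l => w (.X l) := ⟨_, rfl⟩
  obtain ⟨Y, hY⟩ : ∃ Y : Fin n → Ω, Y = fun l => w (.Y l) := ⟨_, rfl⟩
  obtain ⟨xp, hxp⟩ : ∃ xp : Ω, xp = w .xp := ⟨_, rfl⟩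
  obtain ⟨yp, hyp⟩ : ∃ yp : Ω, yp = w .yp := ⟨_, rfl⟩
  have xy : ∀ l, X l * Y l = 0 := fun l => by
    have := hw (.xy l)
    simpa only [E2, hX, hY] using this
  have rx : ∀ l, X l * (uu x l * yp + ∑ j, LL x l j * Y j) = 0 := fun l => by
    have := hw (.rx l)
    simpa only [E2, hX, hY, hyp] using this
  have ry : ∀ l, Y l * (uu x l * xp + ∑ j, LL x l j * X j) = 0 := fun l => by
    have := hw (.ry l)
    simpa only [E2, hX, hY, hxp] using this
  have X1 : X i1 = 1 := by
    have := hw .X1
    simp only [E2] at this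
    rw [hX]
    exact sub_eq_zero.1 this
  have Y1 : Y i1 = 0 := by
    have := xy i1
    rwa [X1, one_mul] at this
  have Y2 : Y i2 ≠ 0 := by
    intro h
    have := hw .Y2
    simp only [E2] at this
    rw [hY] at h
    dsimp only at h
    rw [h, zero_mul, zero_sub, neg_eq_zero] at this
    exact one_ne_zero this
  have X2 : X i2 = 0 := (mul_eq_zero.1 (xy i2)).resolve_right Y2
  set z : Ω := if cs = 0 then yp else xp with hz
  set g : Fin n × Fin n → Ω := fun q =>
    if X q.1 = 0 then (if Y q.1 = 0 then x (Sum.inl q) else if q.2 = i1 then Y q.1 else x (Sum.inl q))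
    else (if q.2 = i2 then X q.1 else x (Sum.inl q)) with hg
  set v : Fin n → Ω := fun j => if cs = 0 then X j else if cs = 1 then Y j else X j - Y j with hv
  obtain ⟨j0, hj0⟩ : ∃ j0, v j0 ≠ 0 := by
    rw [hv]
    by_cases e0 : cs = 0
    · exact ⟨i1, by simp [e0, X1]⟩
    · by_cases e1 : cs = 1
      · exact ⟨i2, by simp [e1, Y2]⟩
      · exact ⟨i1, by simp [e0, e1, X1, Y1]⟩
  set S : Finset Ω := {z} ∪ (((univ : Finset (Fin n × Fin n)).erase (i1, i2)).image g ∪
    (univ.erase j0).image (bb x)) with hS
  have hScard : S.card < Fintype.card (Ix n) := by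
    have k1 : ({z} : Finset Ω).card = 1 := card_singleton z
    have k2 : ((univ : Finset (Fin n × Fin n)).erase (i1, i2)).card + 1 = n * n := by
      rw [card_erase_add_one (mem_univ _), card_univ, Fintype.card_prod, Fintype.card_fin]
    have k3 : (univ.erase j0).card + 1 = n := by
      rw [card_erase_add_one (mem_univ j0), card_univ, Fintype.card_fin]
    have k4 := card_union_le ({z} : Finset Ω) ((((univ : Finset (Fin n × Fin n)).erase (i1, i2)).image g ∪
      (univ.erase j0).image (bb x)))
    have k5 := card_union_le (((univ : Finset (Fin n × Fin n)).erase (i1, i2)).image g) ((univ.erase j0).image (bb x))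
    have k6 := card_image_le (s := (univ : Finset (Fin n × Fin n)).erase (i1, i2)) (f := g)
    have k7 := card_image_le (s := univ.erase j0) (f := bb x)
    rw [Fintype.card_sum, Fintype.card_prod, Fintype.card_fin, hS]
    omega
  set L : Subfield Ω := Subfield.closure (S : Set Ω) with hL
  have hSL : ∀ y ∈ S, y ∈ L := fun y hy => Subfield.subset_closure hy
  have mz : z ∈ L := hSL _ (by rw [hS]; simp)
  have mg : ∀ l j, (l, j) ≠ (i1, i2) → g (l, j) ∈ L := fun l j k1 =>
    hSL _ (mem_union_right _ (mem_union_left _ (mem_image_of_mem g (mem_erase.2 ⟨k1, mem_univ _⟩))))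
  have mβ : ∀ j, j ≠ j0 → bb x j ∈ L := fun j hj =>
    hSL _ (mem_union_right _ (mem_union_right _ (mem_image_of_mem _ (mem_erase.2 ⟨hj, mem_univ j⟩))))
  have g1 : ∀ l j, X l = 0 → Y l = 0 → g (l, j) = x (Sum.inl (l, j)) := by
    intro l j k1 k2
    simp only [hg, if_pos k1, if_pos k2]
  have g2 : ∀ l j, X l = 0 → Y l ≠ 0 → g (l, j) = if j = i1 then Y l else x (Sum.inl (l, j)) := by
    intro l j k1 k2
    simp only [hg, if_pos k1, if_neg k2]
  have g3 : ∀ l j, X l ≠ 0 → g (l, j) = if j = i2 then X l else x (Sum.inl (l, j)) := by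
    intro l j k1
    simp only [hg, if_neg k1]
  have mX : ∀ l, X l ∈ L := by
    intro l
    by_cases k1 : X l = 0
    · rw [k1]
      exact L.zero_mem
    · by_cases hl : l = i1
      · rw [hl, X1]
        exact L.one_mem
      · have := mg l i2 (fun h => hl (congrArg Prod.fst h))
        rwa [g3 l i2 k1, if_pos rfl] at this
  have mY : ∀ l, Y l ∈ L := by
    intro l
    by_cases k2 : Y l = 0
    · rw [k2]
      exact L.zero_mem
    · have k1 : X l = 0 := (mul_eq_zero.1 (xy l)).resolve_right k2
      have := mg l i1 (fun h => h12 (congrArg Prod.snd h))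
      rwa [g2 l i1 k1 k2, if_pos rfl] at this
  have mp : xp ∈ L ∧ yp ∈ L := by
    have h := hw .p1
    simp only [E2] at h
    rw [← hxp, ← hyp] at h
    by_cases e0 : cs = 0
    · rw [if_pos e0] at h
      rw [hz, if_pos e0] at mz
      exact ⟨by rw [h]; exact L.zero_mem, mz⟩
    · rw [if_neg e0] at h
      rw [hz, if_neg e0] at mz
      refine ⟨mz, ?_⟩
      by_cases e1 : cs = 1
      · rw [if_pos e1] at h
        rw [h]
        exact L.zero_mem
      · rw [if_neg e1] at h
        rw [← sub_eq_zero.1 h]
        exact mz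
  have mv : ∀ j, v j ∈ L := by
    intro j
    rw [hv]
    dsimp only
    split_ifs
    · exact mX j
    · exact mY j
    · exact L.sub_mem (mX j) (mY j)
  have mβ' : ∀ j, bb x j ∈ L := by
    intro j
    by_cases hj : j = j0
    · rw [hj]
      refine solve1 L (w := v) (β := bb x) mv (fun j hj _ => mβ j hj) hj0 ?_
      have h0 : ∑ j, bb x j * v j = 0 := by
        have := hw .p2
        simp only [E2] at this
        rw [hv, hX, hY]
        dsimp only
        split_ifs at this ⊢
        · exact this
        · exact this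
        · exact this
      rw [h0]
      exact L.zero_mem
    · exact mβ j hj
  have row : ∀ l j, x (Sum.inl (l, j)) ∈ L := by
    intro l
    by_cases k1 : X l = 0
    · have n1 : l ≠ i1 := fun h => by rw [h, X1] at k1; exact one_ne_zero k1
      by_cases k2 : Y l = 0
      · intro j
        have := mg l j (fun h => n1 (congrArg Prod.fst h))
        rwa [g1 l j k1 k2] at this
      · have known : ∀ j, j ≠ i1 → x (Sum.inl (l, j)) ∈ L := by
          intro j hj1
          have := mg l j (fun h => n1 (congrArg Prod.fst h))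
          rwa [g2 l j k1 k2, if_neg hj1] at this
        have mu : uu x l ∈ L := known l n1
        have hA : ∑ j, LL x l j * X j ∈ L := by
          have h1 := (mul_eq_zero.1 (ry l)).resolve_left k2
          rw [show ∑ j, LL x l j * X j = -(uu x l * xp) by linear_combination h1]
          exact L.neg_mem (L.mul_mem mu mp.1)
        have m1 : LL x l i1 ∈ L := solve1 L (w := X) (β := LL x l) mX (fun j hj _ => by
          unfold LL
          split_ifs
          · exact L.zero_mem
          · exact known j hj) (by rw [X1]; exact one_ne_zero) hA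
        intro j
        by_cases hj1 : j = i1
        · rw [hj1]
          unfold LL at m1
          rwa [if_neg n1] at m1
        · exact known j hj1
    · have n2 : l ≠ i2 := fun h => k1 (by rw [h]; exact X2)
      have known : ∀ j, j ≠ i2 → x (Sum.inl (l, j)) ∈ L := by
        intro j hj2
        have := mg l j (fun h => hj2 (congrArg Prod.snd h))
        rwa [g3 l j k1, if_neg hj2] at this
      have mu : uu x l ∈ L := known l n2
      have hA : ∑ j, LL x l j * Y j ∈ L := by
        have h1 := (mul_eq_zero.1 (rx l)).resolve_left k1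
        rw [show ∑ j, LL x l j * Y j = -(uu x l * yp) by linear_combination h1]
        exact L.neg_mem (L.mul_mem mu mp.2)
      have m2 : LL x l i2 ∈ L := solve1 L (w := Y) (β := LL x l) mY (fun j hj _ => by
        unfold LL
        split_ifs
        · exact L.zero_mem
        · exact known j hj) Y2 hA
      intro j
      by_cases hj2 : j = i2
      · rw [hj2]
        unfold LL at m2
        rwa [if_neg n2] at m2
      · exact known j hj2
  have hall : ∀ i, x i ∈ Subfield.closure (S : Set Ω) := by
    rintro (⟨l, j⟩ | j)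
    · exact row l j
    · exact mβ' j
  have := indep_le hx S hall
  omega

end Pool.Agent.W5h26.GE
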