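import Pool.Agent.W5h26.GE.Elim

/-!
# The systems of equations
-/

set_option autoImplicit false

namespace Pool.Agent.W5h26.GE

open Finset

/-- systems of polynomial equations in `x` with auxiliary variables `w` are preserved by homomorphisms and products -/
theorem sys_hom {ι Wt Kt : Type} (E : ∀ (R : Type) [CommRing R], Kt → (ι → R) → (Wt → R) → R)
    (hnat : ∀ (R S : Type) [CommRing R] [CommRing S] (f : R →+* S) (k : Kt) (x : ι → R) (w : Wt → R),
      f (E R k x w) = E S k (fun i => f (x i)) (fun i => f (w i)))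
    (R S : Type) [CommRing R] [CommRing S] (f : R →+* S) (x : ι → R) (h : ∃ w, ∀ k, E R k x w = 0) :
    ∃ w, ∀ k, E S k (fun i => f (x i)) w = 0 := by
  obtain ⟨w, hw⟩ := h
  exact ⟨fun i => f (w i), fun k => by rw [← hnat, hw k, map_zero]⟩

theorem sys_prod {ι Wt Kt : Type} (E : ∀ (R : Type) [CommRing R], Kt → (ι → R) → (Wt → R) → R)
    (hnat : ∀ (R S : Type) [CommRing R] [CommRing S] (f : R →+* S) (k : Kt) (x : ι → R) (w : Wt → R),
      f (E R k x w) = E S k (fun i => f (x i)) (fun i => f (w i)))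
    (J : Type) (R : J → Type) [∀ j, CommRing (R j)] (x : ∀ j, ι → R j) (h : ∀ j, ∃ w, ∀ k, E (R j) k (x j) w = 0) :
    ∃ w, ∀ k, E (∀ j, R j) k (fun i j => x j i) w = 0 := by
  choose w hw using h
  refine ⟨fun i j => w j i, fun k => funext fun j => ?_⟩
  have := hnat (∀ j, R j) (R j) (Pi.evalRingHom R j) k (fun i j => x j i) (fun i j => w j i)
  rw [Pi.evalRingHom_apply] at this
  rw [this]
  exact hw j k

/-- the variables: `(l, l)` is `u_l`, `(l, j)` is the linking number, `j` is the linking number with `p` -/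
abbrev Ix (n : ℕ) : Type := (Fin n × Fin n) ⊕ Fin n

section
variable {R S : Type} [CommRing R] [CommRing S] {n : ℕ}

def uu (x : Ix n → R) (l : Fin n) : R := x (Sum.inl (l, l))
def LL (x : Ix n → R) (l j : Fin n) : R := if l = j then 0 else x (Sum.inl (l, j))
def bb (x : Ix n → R) (j : Fin n) : R := x (Sum.inr j)

theorem map_uu (f : R →+* S) (x : Ix n → R) (l : Fin n) : f (uu x l) = uu (fun i => f (x i)) l := rfl

theorem map_LL (f : R →+* S) (x : Ix n → R) (l j : Fin n) : f (LL x l j) = LL (fun i => f (x i)) l j := by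
  unfold LL
  split_ifs
  · exact map_zero f
  · rfl

theorem map_bb (f : R →+* S) (x : Ix n → R) (j : Fin n) : f (bb x j) = bb (fun i => f (x i)) j := rfl

end

/-! ### Three lines -/

inductive V3 (n : ℕ) : Type
  | a (l : Fin n) | b (l : Fin n) | c (l : Fin n) | c0 | c1 | c2 | t | y1 | y2 | y3

inductive K3 (n : ℕ) : Type
  | sq (l : Fin n) | r1 (l : Fin n) | r2 (l : Fin n) | r3 (l : Fin n) | a1 | c1 | b1 | a2 | b2 | c2 | b3 | c3 | a3 | vC | vB

def E3 {n : ℕ} (i1 i2 i3 : Fin n) (o ε : Bool) (R : Type) [CommRing R] (k : K3 n) (x : Ix n → R) (w : V3 n → R) : R :=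
  match k with
  | .sq l => w (.a l) * w (.a l) + w (.b l) * w (.c l)
  | .r1 l => (uu x l * w .c1 + ∑ j, LL x l j * w (.b j)) * w (.c l) - w (.b l) * (uu x l * w .c2 + ∑ j, LL x l j * w (.c j)) -
      (if ε then 1 else 0) * uu x l * w (.a l)
  | .r2 l => 2 * ((uu x l * w .c0 + ∑ j, LL x l j * w (.a j)) * w (.b l) -
      (uu x l * w .c1 + ∑ j, LL x l j * w (.b j)) * w (.a l)) - (if ε then 1 else 0) * uu x l * w (.b l)
  | .r3 l => 2 * ((uu x l * w .c2 + ∑ j, LL x l j * w (.c j)) * w (.a l) -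
      (uu x l * w .c0 + ∑ j, LL x l j * w (.a j)) * w (.c l)) - (if ε then 1 else 0) * uu x l * w (.c l)
  | .a1 => w (.a i1)
  | .c1 => w (.c i1)
  | .b1 => w (.b i1) * w .y1 - 1
  | .a2 => w (.a i2)
  | .b2 => w (.b i2)
  | .c2 => w (.c i2) * w .y2 - 1
  | .b3 => w (.b i3) + w (.a i3)
  | .c3 => w (.c i3) - w (.a i3)
  | .a3 => w (.a i3) * w .y3 - 1
  | .vC => if o then 2 * w .c0 * w .t + w .c1 * w .t ^ 2 - w .c2 else w .c1
  | .vB => if o then ∑ j, bb x j * (2 * w (.a j) * w .t + w (.b j) * w .t ^ 2 - w (.c j)) else ∑ j, bb x j * w (.b j)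

theorem E3_nat {n : ℕ} (i1 i2 i3 : Fin n) (o ε : Bool) (R S : Type) [CommRing R] [CommRing S] (f : R →+* S) (k : K3 n)
    (x : Ix n → R) (w : V3 n → R) :
    f (E3 i1 i2 i3 o ε R k x w) = E3 i1 i2 i3 o ε S k (fun i => f (x i)) (fun i => f (w i)) := by
  have h2 : f 2 = 2 := map_ofNat f 2
  cases k <;> cases o <;> cases ε <;>
    simp [E3, h2, map_sub, map_add, map_mul, map_sum, map_uu, map_LL, map_bb]

/-! ### Two lines -/

inductive V2 (n : ℕ) : Type
  | X (l : Fin n) | Y (l : Fin n) | xp | yp | y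

inductive K2 (n : ℕ) : Type
  | X1 | Y2 | xy (l : Fin n) | rx (l : Fin n) | ry (l : Fin n) | p1 | p2

def E2 {n : ℕ} (i1 i2 : Fin n) (cs : Fin 3) (R : Type) [CommRing R] (k : K2 n) (x : Ix n → R) (w : V2 n → R) : R :=
  match k with
  | .X1 => w (.X i1) - 1
  | .Y2 => w (.Y i2) * w .y - 1
  | .xy l => w (.X l) * w (.Y l)
  | .rx l => w (.X l) * (uu x l * w .yp + ∑ j, LL x l j * w (.Y j))
  | .ry l => w (.Y l) * (uu x l * w .xp + ∑ j, LL x l j * w (.X j))
  | .p1 => if cs = 0 then w .xp else if cs = 1 then w .yp else w .xp - w .yp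
  | .p2 => if cs = 0 then ∑ j, bb x j * w (.X j) else if cs = 1 then ∑ j, bb x j * w (.Y j) else
      ∑ j, bb x j * (w (.X j) - w (.Y j))

theorem E2_nat {n : ℕ} (i1 i2 : Fin n) (cs : Fin 3) (R S : Type) [CommRing R] [CommRing S] (f : R →+* S) (k : K2 n)
    (x : Ix n → R) (w : V2 n → R) :
    f (E2 i1 i2 cs R k x w) = E2 i1 i2 cs S k (fun i => f (x i)) (fun i => f (w i)) := by
  cases k <;> fin_cases cs <;>
    simp [E2, map_sub, map_add, map_mul, map_sum, map_uu, map_LL, map_bb]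

end Pool.Agent.W5h26.GE
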