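import Pool.Agent.Results.MP_b583a4_nt.AllResidueFields
import Pool.Agent.W5h26.UF.Cnt

set_option autoImplicit false

open NumberField Matrix IsLocalRing

namespace Pool.Agent.W5h26.GE.Tri

open Finset Filter
open Pool.Agent.Results.MP_b583a4_nt.OrdinaryScalar
open Pool.Agent.Results.MP_b583a4_nt.AllResidueFields
open Pool.Agent.Q202.RT Pool.Agent.Q202.QT Pool.Agent.W5h26.GE
open Pool.Agent.W569.TG (lk)
open Pool.Agent.W5h26.UF (cnt PNum card_fib PNum_ge pencil)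

section
variable {p : ℕ} [Fact p.Prime]

open Polynomial in
theorem cnt_poly {m : ℕ} (P : Polynomial (ZMod p)) (hP : P ≠ 0) (hm : P.natDegree ≤ m) :
    (p : ℝ) - m ≤ (cnt fun x : ZMod p => P.eval x ≠ 0 : ℝ) := by
  classical
  have hp : p.Prime := Fact.out
  have h1 : (univ : Finset (ZMod p)) ⊆ (univ.filter fun x : ZMod p => P.eval x ≠ 0) ∪ P.roots.toFinset := by
    intro x _
    by_cases h : P.eval x = 0
    · refine mem_union_right _ ?_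
      rw [Multiset.mem_toFinset, Polynomial.mem_roots hP]
      exact h
    · exact mem_union_left _ (mem_filter.2 ⟨mem_univ _, h⟩)
  have h2 := (card_le_card h1).trans (card_union_le _ _)
  have h3 : P.roots.toFinset.card ≤ m := (Multiset.toFinset_card_le _).trans ((Polynomial.card_roots' P).trans hm)
  rw [card_univ, ZMod.card] at h2
  have h4 : (cnt fun x : ZMod p => P.eval x ≠ 0) = (univ.filter fun x : ZMod p => P.eval x ≠ 0).card := by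
    unfold cnt
    congr!
  rw [h4]
  have : (p : ℝ) ≤ ((univ.filter fun x : ZMod p => P.eval x ≠ 0).card : ℝ) + m := by
    exact_mod_cast h2.trans (Nat.add_le_add_left h3 _)
  linarith

theorem cnt_mono {α : Type} [Fintype α] {P Q : α → Prop} (h : ∀ a, P a → Q a) : (cnt P : ℝ) ≤ (cnt Q : ℝ) := by
  classical
  refine Nat.cast_le.2 (card_le_card fun a ha => ?_)
  rw [mem_filter] at ha ⊢
  exact ⟨ha.1, h a ha.2⟩

open Polynomial in
theorem avoid2 (v : ZMod p) : (p : ℝ) - 2 ≤ (cnt fun x : ZMod p => x ≠ 0 ∧ x ≠ v : ℝ) := by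
  have h := cnt_poly (m := 2) ((X : Polynomial (ZMod p)) * (X - C v)) (mul_ne_zero X_ne_zero (X_sub_C_ne_zero v))
    (by compute_degree)
  refine le_trans (le_of_eq (by norm_num)) (h.trans (cnt_mono fun x hx => ?_))
  simp only [eval_mul, eval_X, eval_sub, eval_C] at hx
  exact ⟨left_ne_zero_of_mul hx, sub_ne_zero.1 (right_ne_zero_of_mul hx)⟩

open Polynomial in
theorem lin_ne {c z : ZMod p} (h : c ≠ 0 ∨ z ≠ 0) : (C c * X - C z : Polynomial (ZMod p)) ≠ 0 := by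
  intro h0
  have h1 := congrArg (fun P => P.eval 0) h0
  have h2 := congrArg (fun P => P.eval 1) h0
  simp only [eval_sub, eval_mul, eval_C, eval_X, eval_zero, mul_zero, zero_sub, mul_one] at h1 h2
  have hz : z = 0 := neg_eq_zero.1 h1
  rw [hz, sub_zero] at h2
  rcases h with h | h
  · exact h h2
  · exact h hz

open Polynomial in
theorem avoid3 {c z : ZMod p} (h0 : c ≠ 0 ∨ z ≠ 0) (v : ZMod p) :
    (p : ℝ) - 3 ≤ (cnt fun x : ZMod p => x ≠ 0 ∧ x ≠ v ∧ c * x ≠ z : ℝ) := by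
  have h := cnt_poly (m := 3) ((X : Polynomial (ZMod p)) * (X - C v) * (C c * X - C z))
    (mul_ne_zero (mul_ne_zero X_ne_zero (X_sub_C_ne_zero v)) (lin_ne h0)) (by compute_degree)
  refine le_trans (le_of_eq (by norm_num)) (h.trans (cnt_mono fun x hx => ?_))
  simp only [eval_mul, eval_X, eval_sub, eval_C] at hx
  exact ⟨left_ne_zero_of_mul (left_ne_zero_of_mul hx), sub_ne_zero.1 (right_ne_zero_of_mul (left_ne_zero_of_mul hx)),
    sub_ne_zero.1 (right_ne_zero_of_mul hx)⟩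

open Polynomial in
theorem avoid4 {e f α : ZMod p} (he : e ≠ 0) (hf : f ≠ 0) (hα : α ≠ 0) (z y β γ : ZMod p) :
    (p : ℝ) - 4 ≤ (cnt fun x : ZMod p => e * x ≠ z ∧ f * x ≠ y ∧ α * x ^ 2 + β * x + γ ≠ 0 : ℝ) := by
  have hq : (C α * X ^ 2 + C β * X + C γ : Polynomial (ZMod p)) ≠ 0 := by
    intro h0
    have h1 := congrArg (fun P => P.coeff 2) h0
    simp at h1
    exact hα h1
  have h := cnt_poly (m := 4) ((C e * X - C z) * (C f * X - C y) * (C α * X ^ 2 + C β * X + C γ))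
    (mul_ne_zero (mul_ne_zero (lin_ne (Or.inl he)) (lin_ne (Or.inl hf))) hq) (by compute_degree)
  refine le_trans (le_of_eq (by norm_num)) (h.trans (cnt_mono fun x hx => ?_))
  simp only [eval_mul, eval_X, eval_sub, eval_C, eval_add, eval_pow] at hx
  exact ⟨sub_ne_zero.1 (left_ne_zero_of_mul (left_ne_zero_of_mul hx)), sub_ne_zero.1 (right_ne_zero_of_mul (left_ne_zero_of_mul hx)),
    right_ne_zero_of_mul hx⟩

/-- the good vectors for the third prime -/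
def G3 (uk ul a c Bk Bl : ZMod p) (w s : Fin 3 → ZMod p) : Prop :=
  s 0 ≠ 0 ∧ (Bl ≠ 0 ∨ s 2 ≠ 0) ∧ a ≠ s 2 / s 0 ∧ c ≠ s 1 / s 0 ∧ w 1 / uk ≠ w 2 / ul ∧ s 1 / s 0 * w 0 ≠ w 1 / uk * Bk ∧
    s 2 / s 0 * w 0 ≠ w 2 / ul * Bl ∧ QQ a (w 1 / uk) c (w 2 / ul) (s 1 / s 0) (s 2 / s 0) Bk Bl (w 0) ≠ 0

theorem QQ_quad (a b c d e f B1 B2 x : ZMod p) : QQ a b c d e f B1 B2 x =
    (2 * (c * f - a * e)) ^ 2 * x ^ 2 + (4 * (c * f - a * e) * (((c + e) * B2 + (a + f) * B1) * (b - d) +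
      (b + d) * B1 * (f - a) + (b + d) * B2 * (c - e)) - 4 * N1 a b c d e f * (B1 * (f - a) + B2 * (c - e))) * x +
      ((((c + e) * B2 + (a + f) * B1) * (b - d) + (b + d) * B1 * (f - a) + (b + d) * B2 * (c - e)) ^ 2 -
        4 * N1 a b c d e f * (B1 * B2 * (b - d))) := by
  unfold QQ MM N2
  ring

theorem count3 (hp5 : 5 ≤ p) {uk ul a c Bk Bl : ZMod p} (huk : uk ≠ 0) (hul : ul ≠ 0) (hac : a ≠ 0 ∨ c ≠ 0) :
    ((1 : ℝ) - 1 / p) ^ 2 * (1 - 2 / p) * (1 - 3 / p) * (1 - 4 / p) * ((p : ℝ) ^ 3 * (p : ℝ) ^ 3) ≤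
      (PNum (G3 uk ul a c Bk Bl) : ℝ) := by
  have hp : p.Prime := Fact.out
  have hp0 : (0 : ℝ) < p := by exact_mod_cast hp.pos
  have hp5' : (5 : ℝ) ≤ p := by exact_mod_cast hp5
  have h2 : (2 : ZMod p) ≠ 0 := Pool.Agent.Q202.QT.two_ne (by omega)
  have s0 : (p : ℝ) - 1 ≤ (cnt fun x : ZMod p => x ≠ 0 : ℝ) := by
    have h := cnt_poly (p := p) (m := 1) Polynomial.X Polynomial.X_ne_zero (by compute_degree)
    refine le_trans (le_of_eq (by norm_num)) (h.trans (cnt_mono fun x hx => ?_))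
    simpa using hx
  have s1 := card_fib (fun x : ZMod p => x ≠ 0) (fun x y : ZMod p => y ≠ 0 ∧ y ≠ c * x) ((p : ℝ) - 2) (fun x _ => avoid2 (c * x))
  have s2 := card_fib (fun t : ZMod p × ZMod p => t.1 ≠ 0 ∧ (t.2 ≠ 0 ∧ t.2 ≠ c * t.1))
    (fun t z => z ≠ 0 ∧ z ≠ a * t.1 ∧ c * z ≠ a * t.2) ((p : ℝ) - 3) (fun t ht => avoid3 (by
      rcases hac with h | h
      · exact Or.inr (mul_ne_zero h ht.2.1)
      · exact Or.inl h) _)
  have s3 := card_fib (fun t : (ZMod p × ZMod p) × ZMod p => (t.1.1 ≠ 0 ∧ (t.1.2 ≠ 0 ∧ t.1.2 ≠ c * t.1.1)) ∧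
      (t.2 ≠ 0 ∧ t.2 ≠ a * t.1.1 ∧ c * t.2 ≠ a * t.1.2))
    (fun _ (v : ZMod p × ZMod p) => v ≠ 0 ∧ ∀ _ : Fin 1, ul * v.1 + (-uk) * v.2 ≠ 0)
    (((p : ℝ) - 1) * ((p : ℝ) + 1 - (1 : ℕ))) (by
      intro t _
      have := pencil (F := ZMod p) (n := 1) (fun _ => ul) (fun _ => -uk) (fun _ => Or.inl hul)
      rwa [ZMod.card] at this)
  have s4 := card_fib (fun t : ((ZMod p × ZMod p) × ZMod p) × (ZMod p × ZMod p) =>
      ((t.1.1.1 ≠ 0 ∧ (t.1.1.2 ≠ 0 ∧ t.1.1.2 ≠ c * t.1.1.1)) ∧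
      (t.1.2 ≠ 0 ∧ t.1.2 ≠ a * t.1.1.1 ∧ c * t.1.2 ≠ a * t.1.1.2)) ∧
      (t.2 ≠ 0 ∧ ∀ _ : Fin 1, ul * t.2.1 + (-uk) * t.2.2 ≠ 0))
    (fun t (x : ZMod p) => t.1.1.2 / t.1.1.1 * x ≠ t.2.1 / uk * Bk ∧ t.1.2 / t.1.1.1 * x ≠ t.2.2 / ul * Bl ∧
      QQ a (t.2.1 / uk) c (t.2.2 / ul) (t.1.1.2 / t.1.1.1) (t.1.2 / t.1.1.1) Bk Bl x ≠ 0)
    ((p : ℝ) - 4) (by
      rintro ⟨⟨⟨x, y⟩, z⟩, v, v'⟩ ⟨⟨⟨hx, hy, -⟩, hz, -, hyz⟩, -⟩
      simp only at hx hy hz hyz ⊢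
      simp only [QQ_quad]
      refine avoid4 (div_ne_zero hy hx) (div_ne_zero hz hx) (pow_ne_zero 2 (mul_ne_zero h2 ?_)) _ _ _ _
      intro h0
      apply hyz
      field_simp at h0
      linear_combination h0)
  have h5 := PNum_ge (G3 uk ul a c Bk Bl)
    (fun t : (((ZMod p × ZMod p) × ZMod p) × (ZMod p × ZMod p)) × ZMod p =>
      (![t.2, t.1.2.1, t.1.2.2], ![t.1.1.1.1, t.1.1.1.2, t.1.1.2])) (by
      rintro ⟨⟨⟨⟨x, y⟩, z⟩, v, v'⟩, b⟩ ⟨⟨⟨⟨x1, y1⟩, z1⟩, v1, v1'⟩, b1⟩ h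
      rw [Prod.mk.injEq] at h
      have e0 := congrFun h.1 0
      have e1 := congrFun h.1 1
      have e2 := congrFun h.1 2
      have e3 := congrFun h.2 0
      have e4 := congrFun h.2 1
      have e5 := congrFun h.2 2
      simp at e0 e1 e2 e3 e4 e5
      subst e0 e1 e2 e3 e4 e5
      rfl) (fun t => (((t.1.1.1.1 ≠ 0 ∧ (t.1.1.1.2 ≠ 0 ∧ t.1.1.1.2 ≠ c * t.1.1.1.1)) ∧
      (t.1.1.2 ≠ 0 ∧ t.1.1.2 ≠ a * t.1.1.1.1 ∧ c * t.1.1.2 ≠ a * t.1.1.1.2)) ∧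
      (t.1.2 ≠ 0 ∧ ∀ _ : Fin 1, ul * t.1.2.1 + (-uk) * t.1.2.2 ≠ 0)) ∧
      (t.1.1.1.2 / t.1.1.1.1 * t.2 ≠ t.1.2.1 / uk * Bk ∧ t.1.1.2 / t.1.1.1.1 * t.2 ≠ t.1.2.2 / ul * Bl ∧
      QQ a (t.1.2.1 / uk) c (t.1.2.2 / ul) (t.1.1.1.2 / t.1.1.1.1) (t.1.1.2 / t.1.1.1.1) Bk Bl t.2 ≠ 0)) (by
      rintro ⟨⟨⟨⟨x, y⟩, z⟩, v, v'⟩, b⟩ ⟨⟨⟨⟨hx, hy, hyc⟩, hz, hza, -⟩, -, hv⟩, h1, h2, h3⟩
      have hv0 := hv 0
      simp only at hx hy hyc hz hza hv0 h1 h2 h3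
      refine ⟨hx, Or.inr hz, ?_, ?_, ?_, h1, h2, h3⟩
      · intro h
        apply hza
        simp only [Matrix.cons_val_zero, Matrix.cons_val] at h
        rw [h]
        field_simp
      · intro h
        apply hyc
        simp only [Matrix.cons_val_zero, Matrix.cons_val_one] at h
        rw [h]
        field_simp
      · intro h
        apply hv0
        simp only [Matrix.cons_val_zero, Matrix.cons_val_one, Matrix.cons_val] at h
        rw [div_eq_div_iff huk hul] at h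
        linear_combination h) 
  rw [Nat.cast_one] at s3
  have k2 : (0 : ℝ) ≤ (p : ℝ) - 2 := by linarith
  have k3 : (0 : ℝ) ≤ (p : ℝ) - 3 := by linarith
  have k4 : (0 : ℝ) ≤ (p : ℝ) - 4 := by linarith
  have k1 : (0 : ℝ) ≤ ((p : ℝ) - 1) * ((p : ℝ) + 1 - 1) := mul_nonneg (by linarith) (by linarith)
  have t1 := (mul_le_mul_of_nonneg_right s0 k2).trans s1
  have t2 := (mul_le_mul_of_nonneg_right t1 k3).trans s2
  have t3 := (mul_le_mul_of_nonneg_right t2 k1).trans s3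
  have t4 := (mul_le_mul_of_nonneg_right t3 k4).trans s4
  refine le_trans (le_of_eq ?_) (t4.trans h5)
  field_simp
  ring

/-- the quadratic expression for `p = 3` -/
def Q3 (a b c d e f B1 B2 B3 : ZMod 3) : ZMod 3 :=
  (((c + e) * B2 + (a + f) * B1) * (b - d) + ((c + e) * B3 + (b + d) * B1) * (f - a) +
    ((a + f) * B3 + (b + d) * B2) * (c - e)) ^ 2 -
  4 * ((c + e) * (a + f) * (b - d) + (c + e) * (b + d) * (f - a) + (a + f) * (b + d) * (c - e)) *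
    (B1 * B2 * (b - d) + B1 * B3 * (f - a) + B2 * B3 * (c - e))

set_option maxRecDepth 100000 in
theorem dec3 : ∀ a c B1 B2 : ZMod 3, B1 ≠ 0 → c * B2 ≠ a * B1 →
    12 ≤ (univ.filter fun t : ZMod 3 × ZMod 3 × ZMod 3 × ZMod 3 × ZMod 3 =>
      (B2 ≠ 0 ∨ t.2.1 ≠ 0) ∧ a ≠ t.2.1 ∧ c ≠ t.1 ∧ t.2.2.1 ≠ t.2.2.2.1 ∧ t.1 * t.2.2.2.2 ≠ t.2.2.1 * B1 ∧
      t.2.1 * t.2.2.2.2 ≠ t.2.2.2.1 * B2 ∧ Q3 a t.2.2.1 c t.2.2.2.1 t.1 t.2.1 B1 B2 t.2.2.2.2 ≠ 0).card := by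
  decide +kernel

theorem count3_three {q : ℕ} [hq : Fact q.Prime] (h3 : q = 3) {uk ul a c Bk Bl : ZMod q} (huk : uk ≠ 0) (hul : ul ≠ 0)
    (hBk : Bk ≠ 0) (hac : c * Bl ≠ a * Bk) : ((8 : ℝ) / 243) * ((q : ℝ) ^ 3 * (q : ℝ) ^ 3) ≤ (PNum (G3 uk ul a c Bk Bl) : ℝ) := by
  subst h3
  classical
  have h0 : (12 : ℝ) ≤ (cnt fun t : ZMod 3 × ZMod 3 × ZMod 3 × ZMod 3 × ZMod 3 =>
      (Bl ≠ 0 ∨ t.2.1 ≠ 0) ∧ a ≠ t.2.1 ∧ c ≠ t.1 ∧ t.2.2.1 ≠ t.2.2.2.1 ∧ t.1 * t.2.2.2.2 ≠ t.2.2.1 * Bk ∧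
      t.2.1 * t.2.2.2.2 ≠ t.2.2.2.1 * Bl ∧ Q3 a t.2.2.1 c t.2.2.2.1 t.1 t.2.1 Bk Bl t.2.2.2.2 ≠ 0 : ℝ) := by
    have h := dec3 a c Bk Bl hBk hac
    have h' : ((12 : ℕ) : ℝ) ≤ _ := Nat.cast_le.2 h
    refine le_trans (le_of_eq (by norm_num)) (h'.trans (le_of_eq ?_))
    unfold cnt
    congr!
  have h1 := card_fib (fun _ : (ZMod 3)ˣ => True) (fun _ (t : ZMod 3 × ZMod 3 × ZMod 3 × ZMod 3 × ZMod 3) =>
      (Bl ≠ 0 ∨ t.2.1 ≠ 0) ∧ a ≠ t.2.1 ∧ c ≠ t.1 ∧ t.2.2.1 ≠ t.2.2.2.1 ∧ t.1 * t.2.2.2.2 ≠ t.2.2.1 * Bk ∧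
      t.2.1 * t.2.2.2.2 ≠ t.2.2.2.1 * Bl ∧ Q3 a t.2.2.1 c t.2.2.2.1 t.1 t.2.1 Bk Bl t.2.2.2.2 ≠ 0) 12 (fun _ _ => h0)
  have h2 : (cnt fun _ : (ZMod 3)ˣ => True : ℝ) = 2 := by
    have : (cnt fun _ : (ZMod 3)ˣ => True) = (univ : Finset (ZMod 3)ˣ).card := by
      unfold cnt
      congr 1
      ext x
      simp
    rw [this, card_univ, ZMod.card_units 3]
    norm_num
  rw [h2] at h1
  have h5 := PNum_ge (G3 uk ul a c Bk Bl)
    (fun t : (ZMod 3)ˣ × (ZMod 3 × ZMod 3 × ZMod 3 × ZMod 3 × ZMod 3) =>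
      (![t.2.2.2.2.2, uk * t.2.2.2.1, ul * t.2.2.2.2.1], ![(t.1 : ZMod 3), t.1 * t.2.1, t.1 * t.2.2.1])) (by
      rintro ⟨u, x, y, v, v', b⟩ ⟨u1, x1, y1, v1, v1', b1⟩ h
      rw [Prod.mk.injEq] at h
      have e0 := congrFun h.1 0
      have e1 := congrFun h.1 1
      have e2 := congrFun h.1 2
      have e3 := congrFun h.2 0
      have e4 := congrFun h.2 1
      have e5 := congrFun h.2 2
      simp only [Matrix.cons_val_zero, Matrix.cons_val_one, Matrix.cons_val] at e0 e1 e2 e3 e4 e5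
      have e3' : u = u1 := Units.ext e3
      subst e3'
      have e1' := mul_left_cancel₀ huk e1
      have e2' := mul_left_cancel₀ hul e2
      have e4' := mul_left_cancel₀ u.ne_zero e4
      have e5' := mul_left_cancel₀ u.ne_zero e5
      subst e0 e1' e2' e4' e5'
      rfl) (fun t => True ∧ ((Bl ≠ 0 ∨ t.2.2.1 ≠ 0) ∧ a ≠ t.2.2.1 ∧ c ≠ t.2.1 ∧ t.2.2.2.1 ≠ t.2.2.2.2.1 ∧
        t.2.1 * t.2.2.2.2.2 ≠ t.2.2.2.1 * Bk ∧
        t.2.2.1 * t.2.2.2.2.2 ≠ t.2.2.2.2.1 * Bl ∧ Q3 a t.2.2.2.1 c t.2.2.2.2.1 t.2.1 t.2.2.1 Bk Bl t.2.2.2.2.2 ≠ 0)) (by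
      rintro ⟨u, x, y, v, v', b⟩ ⟨-, h1, h2, h3, h4, h5, h6, h7⟩
      simp only at h1 h2 h3 h4 h5 h6 h7
      have hu := u.ne_zero
      have ex : (u : ZMod 3) * x / u = x := mul_div_cancel_left₀ x hu
      have ey : (u : ZMod 3) * y / u = y := mul_div_cancel_left₀ y hu
      have ev : uk * v / uk = v := mul_div_cancel_left₀ v huk
      have ev' : ul * v' / ul = v' := mul_div_cancel_left₀ v' hul
      unfold G3
      simp only [Matrix.cons_val_zero, Matrix.cons_val_one, Matrix.cons_val]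
      rw [ex, ey, ev, ev']
      exact ⟨hu, h1.imp id (fun h => mul_ne_zero hu h), h2, h3, h4, h5, h6, h7⟩)
  refine le_trans (le_of_eq ?_) (h1.trans h5)
  norm_num

theorem G3_smul {uk ul a c Bk Bl : ZMod p} {w s : Fin 3 → ZMod p} (t : ZMod p) (ht : t ≠ 0)
    (h : G3 uk ul a c Bk Bl w s) : G3 uk ul a c Bk Bl (fun j => t * w j) s := by
  obtain ⟨h1, h3, h4, h5, h6, h7, h8, h9⟩ := h
  refine ⟨h1, h3, h4, h5, fun h => h6 ?_, fun h => h7 ?_, fun h => h8 ?_, fun h => h9 ?_⟩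
  · refine mul_left_cancel₀ ht ?_
    simp only at h
    rw [← mul_div_assoc, ← mul_div_assoc]
    exact h
  · refine mul_left_cancel₀ ht ?_
    simp only at h
    linear_combination h
  · refine mul_left_cancel₀ ht ?_
    simp only at h
    linear_combination h
  · have : QQ a (t * w 1 / uk) c (t * w 2 / ul) (s 1 / s 0) (s 2 / s 0) Bk Bl (t * w 0) =
        t ^ 2 * QQ a (w 1 / uk) c (w 2 / ul) (s 1 / s 0) (s 2 / s 0) Bk Bl (w 0) := by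
      unfold QQ MM N1 N2
      ring
    rw [this] at h
    exact (mul_eq_zero.1 h).resolve_left (pow_ne_zero 2 ht)

theorem map_QQ {K : Type} [Field K] (f : ZMod p →+* K) (a b c d e g B1 B2 B3 : ZMod p) :
    QQ (f a) (f b) (f c) (f d) (f e) (f g) (f B1) (f B2) (f B3) = f (QQ a b c d e g B1 B2 B3) := by
  unfold QQ MM N1 N2
  simp only [map_add, map_sub, map_mul, map_pow, map_ofNat]

theorem trip_crit (hp2 : p ≠ 2) {χ : ∀ j : ℕ, (ZMod j)ˣ →* Multiplicative (ZMod p)} (hχ : Kr χ) {k l q : ℕ} (hkl : k ≠ l)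
    (hkq : k ≠ q) (hlq : l ≠ q) (hk : lv p k ≠ 0) (hl : lv p l ≠ 0) (hbk : lk χ p k ≠ 0)
    (h : lv p k * lk χ l k * lk χ p l ≠ lv p l * lk χ k l * lk χ p k) (w s : Fin 3 → ZMod p)
    (hw0 : w 0 = lk χ p q) (hw1 : w 1 = lk χ k q) (hw2 : w 2 = lk χ l q) (hs0 : s 0 = lv p q) (hs1 : s 1 = lk χ q k)
    (hs2 : s 2 = lk χ q l)
    (hG : G3 (lv p k) (lv p l) (lk χ k l / lv p k) (lk χ l k / lv p l) (lk χ p k) (lk χ p l) w s) :
    Reducible p {q, l, k} := by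
  have hp : p.Prime := Fact.out
  obtain ⟨g1, g3, g4, g5, g6, g7, g8, g9⟩ := hG
  rw [hs0] at g1
  rw [hs2] at g3
  rw [hs0, hs2] at g4
  rw [hs0, hs1] at g5
  rw [hw1, hw2] at g6
  rw [hs0, hs1, hw0, hw1] at g7
  rw [hs0, hs2, hw0, hw2] at g8
  rw [hs0, hs1, hs2, hw0, hw1, hw2] at g9
  have hsq : ∀ a ∈ ({q, l, k} : Set ℕ), ¬ p ^ 2 ∣ a - 1 := by
    rintro a (rfl | rfl | rfl)
    · exact sq_of_lv g1
    · exact sq_of_lv hl
    · exact sq_of_lv hk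
  refine ⟨hsq, ?_⟩
  intro S hS hT A _ _ _ _ _ hA hfin e he h0 h0' ρ hρ hur hres hU P hP hpP hloc
  have hpm : (p : A) ∈ maximalIdeal A := Ideal.pow_le_self (by omega) h0
  have hchar : CharP (ResidueField A) p := Pool.Agent.TH831.OE.charP_res hp hpm
  have hS' : ∀ a ∈ S, a.Prime ∧ a ≠ p ∧ ¬ p ^ 2 ∣ a - 1 := by
    intro a ha
    refine ⟨(hS a ha).1, (hS a ha).2, fun h => ?_⟩
    exact hsq a (hT a ha ((dvd_pow_self p two_ne_zero).trans h)) h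
  set φ := ZMod.castHom (dvd_refl p) (ResidueField A) with hφ
  have hφ0 : ∀ {x : ZMod p}, x ≠ 0 → φ x ≠ 0 := fun hx h => hx (φ.injective (by rw [h, map_zero]))
  have hφn : ∀ {x y : ZMod p}, x ≠ y → φ x ≠ φ y := fun hx h => hx (φ.injective h)
  have two : (2 : ResidueField A) ≠ 0 := by
    have := hφ0 (Pool.Agent.Q202.QT.two_ne (p := p) hp2)
    rwa [map_ofNat] at this
  have eu : (fun l : ℕ => (((l - 1) / p : ℕ) : ResidueField A)) = fun l => φ (lv p l) := by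
    funext a
    unfold lv
    rw [map_natCast]
  have el : (fun l j : ℕ => linking (ResidueField A) j l (χ j)) = fun l j => φ (lk χ l j) := by
    funext a j
    exact Pool.Agent.Results.MP_b583a4_nt.MostTuples.linking_lk χ j a
  have eb : (fun j : ℕ => linking (ResidueField A) j p (χ j)) = fun j => φ (lk χ p j) := by
    funext j
    exact Pool.Agent.Results.MP_b583a4_nt.MostTuples.linking_lk χ j p
  have hsub : Tame p S ⊆ {k, l, q} := by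
    intro a ha
    have := hT a (mem_filter.1 ha).1 (mem_filter.1 ha).2
    simp only [Set.mem_insert_iff, Set.mem_singleton_iff] at this
    simp only [mem_insert, mem_singleton]
    tauto
  have d1 : lk χ l k / lv p l * lk χ p l ≠ lk χ k l / lv p k * lk χ p k := by
    intro h1
    apply h
    field_simp at h1
    linear_combination h1
  have dz2 : lk χ p l ≠ 0 ∨ (lk χ k l ≠ 0 ∧ lk χ q l ≠ 0) := by
    by_cases hz : lk χ p l = 0
    · refine Or.inr ⟨fun h1 => h ?_, g3.resolve_left (fun h2 => h2 hz)⟩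
      rw [hz, h1]
      ring
    · exact Or.inl hz
  have dz3 : lk χ p q ≠ 0 ∨ (lk χ k q ≠ 0 ∧ lk χ l q ≠ 0) := by
    by_cases hz : lk χ p q = 0
    · refine Or.inr ⟨fun h1 => g7 ?_, fun h1 => g8 ?_⟩
      · rw [hz, h1]
        ring
      · rw [hz, h1]
        ring
    · exact Or.inl hz
  have hmd : ∀ {a b c d : ZMod p}, a / b ≠ c / d → φ a / φ b ≠ φ c / φ d := by
    intro a b c d h
    rw [← map_div₀, ← map_div₀]
    exact hφn h
  have hmm : ∀ {a b c a' b' c' : ZMod p}, a / b * c ≠ a' / b' * c' → φ a / φ b * φ c ≠ φ a' / φ b' * φ c' := by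
    intro a b c a' b' c' h
    rw [← map_div₀, ← map_div₀, ← map_mul, ← map_mul]
    exact hφn h
  have hcm : ∀ {a b c d : ZMod p}, b ≠ 0 → d ≠ 0 → a / b ≠ c / d → φ a * φ d ≠ φ c * φ b := by
    intro a b c d hb hd h
    rw [← map_mul, ← map_mul]
    refine hφn fun h1 => h ?_
    rw [div_eq_div_iff hb hd]
    exact h1
  have hN : ∀ ε : ResidueField A, ε = 0 ∨ ε = 1 → NoTuple (ResidueField A) p S χ ε := by
    intro ε hε
    apply Pool.Agent.Results.MP_b583a4_nt.MostTuples.notuple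
    rw [eu, el, eb]
    refine nto_mono hsub (nto_three two hkl hkq hlq (hφ0 hk) (hφ0 hl) (hφ0 g1) (hmd g4) (hmd g5) (hmd g6) (hmm d1) (hmm g7)
      (hmm g8) ?_ ε hε)
    simp only [← map_div₀]
    rw [map_QQ]
    exact hφ0 g9
  have hP' : NoPair (ResidueField A) p S χ := by
    have h : NP (Tame p S) (fun l => (((l - 1) / p : ℕ) : ResidueField A)) (fun l j => linking (ResidueField A) j l (χ j))
        (fun j => linking (ResidueField A) j p (χ j)) := by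
      rw [eu, el, eb]
      refine np_mono hsub (np_three hkl hkq hlq (hφ0 hk) (hφ0 hl) (hφ0 g1) (hcm hk g1 g4) (hcm hl g1 g5) (hcm hk hl g6)
        (Or.inl (hφ0 hbk)) ?_ ?_)
      · exact dz2.imp hφ0 (fun h => ⟨hφ0 h.1, hφ0 h.2⟩)
      · exact dz3.imp hφ0 (fun h => ⟨hφ0 h.1, hφ0 h.2⟩)
    exact h
  exact Pool.Agent.Results.MP_b583a4_nt.OrdinaryScalar.result p hp2 S hS' A hA hfin e he h0 h0' χ
    (fun a ha => (hχ a (hS a (mem_filter.1 ha).1).1 (mem_filter.1 ha).2).1)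
    (Or.inr ⟨hP', hN 1 (Or.inr rfl), Or.inr (hN 0 (Or.inl rfl))⟩) ρ hρ hur hres hU P hP hpP hloc

end

end Pool.Agent.W5h26.GE.Tri
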