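import Pool.Agent.W5h26.GE.Tri

/-!
# Counts for the first two primes
-/

set_option autoImplicit false

namespace Pool.Agent.W5h26.GE.Tri

open Finset
open Pool.Agent.W5h26.UF (cnt PNum card_fib PNum_ge pencil)

section
variable {p : ℕ} [Fact p.Prime]

theorem cnt_ne : (cnt fun a : ZMod p => a ≠ 0 : ℝ) = (p : ℝ) - 1 := by
  classical
  have hp : p.Prime := Fact.out
  have h : (cnt fun a : ZMod p => a ≠ 0) = ((univ : Finset (ZMod p)).erase 0).card := by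
    unfold cnt
    congr 1
    ext a
    simp
  rw [h, card_erase_of_mem (mem_univ _), card_univ, ZMod.card, Nat.cast_sub hp.one_le, Nat.cast_one]

theorem cnt_univ : (cnt fun _ : ZMod p => True : ℝ) = (p : ℝ) := by
  classical
  have h : (cnt fun _ : ZMod p => True) = (univ : Finset (ZMod p)).card := by
    unfold cnt
    congr 1
    ext a
    simp
  rw [h, card_univ, ZMod.card]

theorem count1 : ((1 : ℝ) - 1 / p) ^ 2 * ((p : ℝ) ^ 1 * (p : ℝ) ^ 1) ≤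
    (PNum fun w s : Fin 1 → ZMod p => w 0 ≠ 0 ∧ s 0 ≠ 0 : ℝ) := by
  have hp : p.Prime := Fact.out
  have hp0 : (0 : ℝ) < p := by exact_mod_cast hp.pos
  have h := card_fib (fun a : ZMod p => a ≠ 0) (fun (_ b : ZMod p) => b ≠ 0) ((p : ℝ) - 1) (fun _ _ => cnt_ne.ge)
  rw [cnt_ne] at h
  have h2 := PNum_ge (fun w s : Fin 1 → ZMod p => w 0 ≠ 0 ∧ s 0 ≠ 0)
    (fun t : ZMod p × ZMod p => ((fun _ => t.1), (fun _ => t.2))) (by
    rintro ⟨a, b⟩ ⟨a', b'⟩ h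
    rw [Prod.mk.injEq] at h
    exact Prod.ext (congrFun h.1 0) (congrFun h.2 0)) (fun ab => ab.1 ≠ 0 ∧ ab.2 ≠ 0) (fun ab h => h)
  refine le_trans (le_of_eq ?_) (h.trans h2)
  field_simp

theorem count2 {u b : ZMod p} (hb : b ≠ 0) : ((1 : ℝ) - 1 / p) ^ 2 * ((p : ℝ) ^ 2 * (p : ℝ) ^ 2) ≤
    (PNum fun w s : Fin 2 → ZMod p => s 0 ≠ 0 ∧ u * s 1 * w 0 ≠ s 0 * w 1 * b : ℝ) := by
  have hp : p.Prime := Fact.out
  have hp0 : (0 : ℝ) < p := by exact_mod_cast hp.pos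
  have hp1 : (1 : ℝ) ≤ p := by exact_mod_cast hp.one_le
  have h0 := card_fib (fun a : ZMod p => a ≠ 0) (fun (_ b : ZMod p) => True) (p : ℝ) (fun _ _ => cnt_univ.ge)
  rw [cnt_ne] at h0
  have h := card_fib (fun t : ZMod p × ZMod p => t.1 ≠ 0 ∧ True)
    (fun t (v : ZMod p × ZMod p) => v ≠ 0 ∧ ∀ _ : Fin 1, (u * t.2) * v.1 + (-(t.1 * b)) * v.2 ≠ 0)
    (((p : ℝ) - 1) * ((p : ℝ) + 1 - (1 : ℕ))) (by
      intro t ht
      have := pencil (F := ZMod p) (n := 1) (fun _ => u * t.2) (fun _ => -(t.1 * b))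
        (fun _ => Or.inr (neg_ne_zero.2 (mul_ne_zero ht.1 hb)))
      rwa [ZMod.card] at this)
  have h2 := PNum_ge (fun w s : Fin 2 → ZMod p => s 0 ≠ 0 ∧ u * s 1 * w 0 ≠ s 0 * w 1 * b)
    (fun t : (ZMod p × ZMod p) × (ZMod p × ZMod p) => (![t.2.1, t.2.2], ![t.1.1, t.1.2])) (by
    rintro ⟨⟨a, b⟩, c, d⟩ ⟨⟨a', b'⟩, c', d'⟩ h
    rw [Prod.mk.injEq] at h
    have e0 := congrFun h.1 0
    have e1 := congrFun h.1 1
    have e2 := congrFun h.2 0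
    have e3 := congrFun h.2 1
    simp at e0 e1 e2 e3
    subst e0 e1 e2 e3
    rfl) (fun ab => (ab.1.1 ≠ 0 ∧ True) ∧ ab.2 ≠ 0 ∧ ∀ _ : Fin 1, (u * ab.1.2) * ab.2.1 + (-(ab.1.1 * b)) * ab.2.2 ≠ 0) (by
    rintro ⟨⟨a, b⟩, c, d⟩ ⟨⟨h1, -⟩, -, h⟩
    refine ⟨h1, fun h3 => h 0 ?_⟩
    simp at h3 ⊢
    linear_combination h3)
  refine le_trans ?_ (h.trans h2)
  rw [Nat.cast_one]
  refine le_trans (le_of_eq ?_) (mul_le_mul_of_nonneg_right h0 (mul_nonneg (by linarith) (by linarith)))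
  field_simp
  ring

end

end Pool.Agent.W5h26.GE.Tri
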